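import Pool.Agent.Helper59.SP.Price

set_option autoImplicit false

/-! Closed forms of the bound. -/

namespace Pool.Agent.Helper59.SP

open Pool.Agent.H581R2.Splay Pool.Agent.TH49.Spl Tr Finset

/-- the tangent line argument for the logarithm -/
theorem jensen {s : Finset ℕ} {b a : ℕ → ℝ} (hb : ∀ i ∈ s, 0 < b i) (ha : ∀ i ∈ s, 0 ≤ a i)
    {N : ℝ} (hN : ∑ i ∈ s, a i ≤ N) :
    ∑ i ∈ s, b i * Real.logb 2 (1 + a i / b i) ≤
      (∑ i ∈ s, b i) * Real.logb 2 (1 + N / ∑ i ∈ s, b i) := by
  rcases s.eq_empty_or_nonempty with rfl | hne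
  · simp
  set B := ∑ i ∈ s, b i with hB
  have hB0 : 0 < B := Finset.sum_pos hb hne
  have hN0 : 0 ≤ N := (Finset.sum_nonneg ha).trans hN
  set c := N / B with hc
  have hc0 : 0 ≤ c := by positivity
  have hl2 : 0 < Real.log 2 := Real.log_pos (by norm_num)
  have key : ∀ i ∈ s, b i * Real.logb 2 (1 + a i / b i) ≤
      b i * Real.logb 2 (1 + c) + (a i - c * b i) / ((1 + c) * Real.log 2) := by
    intro i hi
    have h1 := hb i hi
    have h2 := ha i hi
    have h3 : 0 < 1 + a i / b i := by positivity
    have h4 := Real.log_le_sub_one_of_pos (show 0 < (1 + a i / b i) / (1 + c) by positivity)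
    rw [Real.log_div h3.ne' (by positivity)] at h4
    have h5 : Real.logb 2 (1 + a i / b i) ≤ Real.logb 2 (1 + c) +
        ((1 + a i / b i) / (1 + c) - 1) / Real.log 2 := by
      unfold Real.logb
      rw [← add_div]
      exact div_le_div_of_nonneg_right (by linarith) hl2.le
    calc b i * Real.logb 2 (1 + a i / b i) ≤ b i * (Real.logb 2 (1 + c) +
        ((1 + a i / b i) / (1 + c) - 1) / Real.log 2) := by gcongr
      _ = b i * Real.logb 2 (1 + c) + (a i - c * b i) / ((1 + c) * Real.log 2) := by
        field_simp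
        ring
  refine (Finset.sum_le_sum key).trans ?_
  rw [Finset.sum_add_distrib, ← Finset.sum_mul, ← Finset.sum_div, Finset.sum_sub_distrib,
    ← Finset.mul_sum, ← hB]
  have h6 : c * B = N := by rw [hc]; field_simp
  rw [h6]
  have h7 : (∑ i ∈ s, a i - N) / ((1 + c) * Real.log 2) ≤ 0 :=
    div_nonpos_of_nonpos_of_nonneg (by linarith) (by positivity)
  linarith

/-- the cost of the requests of an execution: one plus the depth for every request -/
def accessCost (t : ℕ → Tr) (q : ℕ → Option ℕ) (M : ℕ) : ℕ :=
  ∑ i ∈ range M, (q i).elim 0 (fun x => 1 + dep x (t i))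

/-- the sum over the requests of the number of the keys which take part in rotations before the
next request of the same key -/
def movedTotal (q : ℕ → Option ℕ) (P : ℕ → Finset ℕ) (M : ℕ) : ℕ :=
  ∑ i ∈ range M, (q i).elim 0 (fun _ => (moved q P M i).card)

/-- the sum of the sizes of the rotated subtrees -/
def volume (S : ℕ → List ℕ) (M : ℕ) : ℕ := ∑ i ∈ range M, (S i).length

/-- the number of the rotations -/
def rotations (q : ℕ → Option ℕ) (M : ℕ) : ℕ := ((range M).filter fun i => q i = none).card

theorem ev_card {T T' : Tr} {P : Finset ℕ} {S : List ℕ} (h : Ev T T' none P S) : P.card ≤ 2 := by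
  cases h with
  | rot => exact Finset.card_le_two

section
variable {t : ℕ → Tr} {q : ℕ → Option ℕ} {P : ℕ → Finset ℕ} {S : ℕ → List ℕ} {n M : ℕ}

theorem elim_sum (q : ℕ → Option ℕ) (M : ℕ) (F : ℕ → ℕ → ℝ) :
    ∑ i ∈ range M, (q i).elim 0 (fun x => F i x) =
    ∑ i ∈ (range M).filter (fun i => q i ≠ none), F i ((q i).getD 0) := by
  rw [Finset.sum_filter]
  refine Finset.sum_congr rfl fun i _ => ?_
  cases h : q i with
  | none => simp
  | some x => simp

theorem elim_sum_nat (q : ℕ → Option ℕ) (M : ℕ) (F : ℕ → ℕ → ℕ) :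
    ∑ i ∈ range M, (q i).elim 0 (fun x => F i x) =
    ∑ i ∈ (range M).filter (fun i => q i ≠ none), F i ((q i).getD 0) := by
  rw [Finset.sum_filter]
  refine Finset.sum_congr rfl fun i _ => ?_
  cases h : q i with
  | none => simp
  | some x => simp

theorem length_eq (q : ℕ → Option ℕ) (M : ℕ) :
    ((List.range M).filterMap q).length = ((range M).filter fun i => q i ≠ none).card := by
  induction M with
  | zero => simp
  | succ M ih =>
    rw [List.range_succ, List.filterMap_append, List.length_append, ih, Finset.range_add_one,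
      Finset.filter_insert]
    cases h : q M with
    | none => simp [h]
    | some x =>
      rw [if_pos (by simp), Finset.card_insert_of_notMem (by simp)]
      simp [h]

theorem until_inj {j : ℕ} {i i' : ℕ} (h1 : j ∈ until' q M i) (h2 : j ∈ until' q M i')
    (h : q i = q i') : i = i' := by
  unfold until' at h1 h2
  rw [Finset.mem_filter, Finset.mem_Ioo] at h1 h2
  rcases lt_trichotomy i i' with h3 | h3 | h3
  · exact absurd h.symm (h1.2 i' (Finset.mem_Ioo.2 ⟨h3, by omega⟩))
  · exact h3
  · exact absurd h (h2.2 i (Finset.mem_Ioo.2 ⟨h3, by omega⟩))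

theorem until_range {i j : ℕ} (h : j ∈ until' q M i) : j < M := by
  unfold until' at h
  rw [Finset.mem_filter, Finset.mem_Ioo] at h
  exact h.1.2

/-- every rotated subtree is charged at most once for each of its keys -/
theorem touched_sum : ∑ i ∈ (range M).filter (fun i => q i ≠ none),
    touched q S M i ((q i).getD 0) ≤ volume S M := by
  set Rq := (range M).filter (fun i => q i ≠ none) with hRq
  have h1 : ∀ i ∈ Rq, touched q S M i ((q i).getD 0) =
      ((range M).filter fun j => j ∈ until' q M i ∧ (q i).getD 0 ∈ S j).card := by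
    intro i _
    unfold touched
    congr 1
    ext j
    simp only [Finset.mem_filter, Finset.mem_range]
    constructor
    · rintro ⟨h1, h2⟩; exact ⟨until_range h1, h1, h2⟩
    · rintro ⟨_, h1, h2⟩; exact ⟨h1, h2⟩
  rw [Finset.sum_congr rfl h1]
  have h2 := Finset.sum_card_bipartiteAbove_eq_sum_card_bipartiteBelow (s := Rq) (t := range M)
    (fun i j => j ∈ until' q M i ∧ (q i).getD 0 ∈ S j)
  unfold Finset.bipartiteAbove Finset.bipartiteBelow at h2
  rw [h2]
  unfold volume
  refine Finset.sum_le_sum fun j _ => ?_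
  refine le_trans ?_ (List.toFinset_card_le (S j))
  refine Finset.card_le_card_of_injOn (fun i => (q i).getD 0) ?_ ?_
  · intro i hi
    rw [Finset.mem_coe, Finset.mem_filter] at hi
    rw [Finset.mem_coe, List.mem_toFinset]
    exact hi.2.2
  · intro i hi i' hi' hii
    rw [Finset.mem_coe, Finset.mem_filter, hRq, Finset.mem_filter] at hi hi'
    obtain ⟨x, hx⟩ := Option.ne_none_iff_exists'.1 hi.1.2
    obtain ⟨y, hy⟩ := Option.ne_none_iff_exists'.1 hi'.1.2
    simp only [hx, hy, Option.getD_some] at hii
    exact until_inj hi.2.1 hi'.2.1 (by rw [hx, hy, hii])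

/-- few rotations move few keys -/
theorem moved_sum (hE : ∀ i < M, Ev (t i) (t (i + 1)) (q i) (P i) (S i))
    (hn : (keys (t 0)).length = n) : movedTotal q P M ≤ 2 * n * rotations q M := by
  unfold movedTotal
  rw [elim_sum_nat q M (fun i _ => (moved q P M i).card)]
  set Rq := (range M).filter (fun i => q i ≠ none) with hRq
  have hP : ∀ j < M, (P j).card ≤ if q j = none then 2 else 0 := by
    intro j hj
    have := hE j hj
    cases h : q j with
    | some x =>
      rw [h] at this
      rw [this.mem.2.1]
      simp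
    | none =>
      rw [h] at this
      rw [if_pos rfl]
      exact ev_card this
  have h1 : ∀ i ∈ Rq, (moved q P M i).card ≤
      ∑ j ∈ range M, if j ∈ until' q M i then (P j).card else 0 := by
    intro i _
    unfold moved
    refine Finset.card_biUnion_le.trans ?_
    rw [← Finset.sum_filter]
    refine Finset.sum_le_sum_of_subset ?_
    intro j hj
    rw [Finset.mem_filter, Finset.mem_range]
    exact ⟨until_range hj, hj⟩
  refine (Finset.sum_le_sum h1).trans ?_
  rw [Finset.sum_comm]
  have h2 : ∀ j ∈ range M, (∑ i ∈ Rq, if j ∈ until' q M i then (P j).card else 0) ≤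
      n * (if q j = none then 2 else 0) := by
    intro j hj
    rw [← Finset.sum_filter, Finset.sum_const, smul_eq_mul]
    refine Nat.mul_le_mul ?_ (hP j (Finset.mem_range.1 hj))
    rw [← hn]
    refine le_trans ?_ (List.toFinset_card_le (keys (t 0)))
    refine Finset.card_le_card_of_injOn (fun i => (q i).getD 0) ?_ ?_
    · intro i hi
      rw [Finset.mem_coe, Finset.mem_filter, hRq, Finset.mem_filter, Finset.mem_range] at hi
      obtain ⟨x, hx⟩ := Option.ne_none_iff_exists'.1 hi.1.2
      simp only [hx, Option.getD_some, Finset.mem_coe, List.mem_toFinset]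
      exact req_mem hE i hi.1.1 x hx
    · intro i hi i' hi' hii
      rw [Finset.mem_coe, Finset.mem_filter, hRq, Finset.mem_filter] at hi hi'
      obtain ⟨x, hx⟩ := Option.ne_none_iff_exists'.1 hi.1.2
      obtain ⟨y, hy⟩ := Option.ne_none_iff_exists'.1 hi'.1.2
      simp only [hx, hy, Option.getD_some] at hii
      exact until_inj hi.2 hi'.2 (by rw [hx, hy, hii])
  refine (Finset.sum_le_sum h2).trans ?_
  rw [← Finset.mul_sum, ← Finset.sum_filter, Finset.sum_const, smul_eq_mul]
  unfold rotations
  exact le_of_eq (by ring)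

/-- few moved keys between two consecutive requests of the same key -/
theorem closedB (hb : IsBST (t 0)) (hE : ∀ i < M, Ev (t i) (t (i + 1)) (q i) (P i) (S i))
    (hn : (keys (t 0)).length = n) {T : Tr} (hT : keys T = keys (t 0)) :
    (costSplay T ((List.range M).filterMap q) : ℝ) ≤
      14 * accessCost t q M + 6 * ((List.range M).filterMap q).length *
        Real.logb 2 (1 + movedTotal q P M / ((List.range M).filterMap q).length) +
        4 * n * Real.logb 2 n := by
  refine (main hb hE hn hT).trans ?_
  refine add_le_add ?_ le_rfl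
  rw [elim_sum, length_eq]
  set Rq := (range M).filter (fun i => q i ≠ none) with hRq
  have h1 : (accessCost t q M : ℝ) = ∑ i ∈ Rq, (1 + (dep ((q i).getD 0) (t i) : ℝ)) := by
    unfold accessCost
    rw [elim_sum_nat q M (fun i x => 1 + dep x (t i))]
    push_cast
    rfl
  have h2 : (movedTotal q P M : ℝ) = ∑ i ∈ Rq, ((moved q P M i).card : ℝ) := by
    unfold movedTotal
    rw [elim_sum_nat q M (fun i _ => (moved q P M i).card)]
    push_cast
    rfl
  have h3 := jensen (s := Rq) (b := fun _ => 1) (a := fun i => ((moved q P M i).card : ℝ))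
    (fun _ _ => one_pos) (fun _ _ => by positivity) (N := movedTotal q P M) h2.ge
  simp only [one_mul, div_one, Finset.sum_const, nsmul_eq_mul, mul_one] at h3
  have h4 : ∑ i ∈ Rq, (8 + 3 * price (una (moved q P M i) ((q i).getD 0) (t i))
      (moved q P M i).card (dep ((q i).getD 0) (t i)) (touched q S M i ((q i).getD 0)) n) ≤
      ∑ i ∈ Rq, (14 * (1 + (dep ((q i).getD 0) (t i) : ℝ)) +
        6 * Real.logb 2 (1 + ((moved q P M i).card : ℝ))) := by
    refine Finset.sum_le_sum fun i _ => ?_
    have h5 : price (una (moved q P M i) ((q i).getD 0) (t i))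
      (moved q P M i).card (dep ((q i).getD 0) (t i)) (touched q S M i ((q i).getD 0)) n ≤ _ :=
      min_le_left _ _
    have h6 : (una (moved q P M i) ((q i).getD 0) (t i) : ℝ) ≤ dep ((q i).getD 0) (t i) := by
      exact_mod_cast una_le _ _ _
    have h7 : (0 : ℝ) ≤ dep ((q i).getD 0) (t i) := by positivity
    linarith
  refine h4.trans ?_
  rw [Finset.sum_add_distrib, ← Finset.mul_sum, ← Finset.mul_sum, ← h1]
  linarith

theorem closedC (hb : IsBST (t 0)) (hE : ∀ i < M, Ev (t i) (t (i + 1)) (q i) (P i) (S i))
    (hn : (keys (t 0)).length = n) {T : Tr} (hT : keys T = keys (t 0)) :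
    (costSplay T ((List.range M).filterMap q) : ℝ) ≤
      17 * accessCost t q M +
        6 * accessCost t q M * Real.logb 2 (1 + volume S M / accessCost t q M) +
        4 * n * Real.logb 2 n := by
  refine (main hb hE hn hT).trans ?_
  refine add_le_add ?_ le_rfl
  rw [elim_sum]
  set Rq := (range M).filter (fun i => q i ≠ none) with hRq
  have h1 : (accessCost t q M : ℝ) = ∑ i ∈ Rq, ((dep ((q i).getD 0) (t i) : ℝ) + 1) := by
    unfold accessCost
    rw [elim_sum_nat q M (fun i x => 1 + dep x (t i))]
    push_cast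
    exact Finset.sum_congr rfl fun i _ => by ring
  have h2 : ∑ i ∈ Rq, (touched q S M i ((q i).getD 0) : ℝ) ≤ volume S M := by
    exact_mod_cast touched_sum (q := q) (S := S) (M := M)
  have h3 := jensen (s := Rq) (b := fun i => (dep ((q i).getD 0) (t i) : ℝ) + 1)
    (a := fun i => (touched q S M i ((q i).getD 0) : ℝ))
    (fun _ _ => by positivity) (fun _ _ => by positivity) h2
  rw [← h1] at h3
  have h4 : ∑ i ∈ Rq, (8 + 3 * price (una (moved q P M i) ((q i).getD 0) (t i))
      (moved q P M i).card (dep ((q i).getD 0) (t i)) (touched q S M i ((q i).getD 0)) n) ≤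
      ∑ i ∈ Rq, (17 * ((dep ((q i).getD 0) (t i) : ℝ) + 1) +
        6 * (((dep ((q i).getD 0) (t i) : ℝ) + 1) *
          Real.logb 2 (1 + (touched q S M i ((q i).getD 0) : ℝ) /
            ((dep ((q i).getD 0) (t i) : ℝ) + 1)))) := by
    refine Finset.sum_le_sum fun i _ => ?_
    have h5 : price (una (moved q P M i) ((q i).getD 0) (t i))
      (moved q P M i).card (dep ((q i).getD 0) (t i)) (touched q S M i ((q i).getD 0)) n ≤ _ :=
      (min_le_right _ _).trans (min_le_left _ _)
    have h7 : (0 : ℝ) ≤ dep ((q i).getD 0) (t i) := by positivity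
    nlinarith
  refine h4.trans ?_
  rw [Finset.sum_add_distrib, ← Finset.mul_sum, ← Finset.mul_sum, ← h1]
  linarith

theorem closedR (hb : IsBST (t 0)) (hE : ∀ i < M, Ev (t i) (t (i + 1)) (q i) (P i) (S i))
    (hn : (keys (t 0)).length = n) {T : Tr} (hT : keys T = keys (t 0)) :
    (costSplay T ((List.range M).filterMap q) : ℝ) ≤
      14 * accessCost t q M + 6 * ((List.range M).filterMap q).length *
        Real.logb 2 (1 + 2 * n * rotations q M / ((List.range M).filterMap q).length) +
        4 * n * Real.logb 2 n := by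
  refine (closedB hb hE hn hT).trans ?_
  refine add_le_add (add_le_add le_rfl ?_) le_rfl
  refine mul_le_mul_of_nonneg_left ?_ (by positivity)
  refine logb_mono (by positivity) ?_
  have h1 : (movedTotal q P M : ℝ) ≤ 2 * n * rotations q M := by
    exact_mod_cast moved_sum hE hn
  gcongr

theorem two_log {D R V : ℝ} (hD : 0 ≤ D) (hR : 0 ≤ R) (hV : 0 ≤ V) :
    D * Real.logb 2 (1 + V / D) ≤ (D + R) * Real.logb 2 (1 + V / (D + R)) := by
  rcases hD.eq_or_lt with h | hD
  · rw [← h, zero_mul]
    exact mul_nonneg (by linarith) (logb_nn (by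
      have : 0 ≤ V / (0 + R) := by positivity
      linarith))
  rcases hR.eq_or_lt with h | hR
  · rw [← h, add_zero]
  have h1 := jensen (s := {0, 1}) (b := fun i => if i = 0 then D else R)
    (a := fun i => if i = 0 then V else 0) (fun i _ => by split_ifs <;> assumption)
    (fun i _ => by split_ifs <;> first | assumption | exact le_rfl) (N := V) (by simp)
  simpa using h1

theorem volume_zero (hE : ∀ i < M, Ev (t i) (t (i + 1)) (q i) (P i) (S i))
    (hR : rotations q M = 0) : volume S M = 0 := by
  unfold rotations at hR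
  rw [Finset.card_eq_zero, Finset.filter_eq_empty_iff] at hR
  unfold volume
  refine Finset.sum_eq_zero fun i hi => ?_
  have h1 := hR hi
  rw [Finset.mem_range] at hi
  obtain ⟨x, hx⟩ := Option.ne_none_iff_exists'.1 h1
  have := hE i hi
  rw [hx] at this
  rw [this.mem.2.2]
  rfl

theorem closedV (hb : IsBST (t 0)) (hE : ∀ i < M, Ev (t i) (t (i + 1)) (q i) (P i) (S i))
    (hn : (keys (t 0)).length = n) {T : Tr} (hT : keys T = keys (t 0)) :
    (costSplay T ((List.range M).filterMap q) : ℝ) ≤
      (17 + 6 * Real.logb 2 (1 + volume S M / rotations q M)) *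
        (accessCost t q M + rotations q M) + 4 * n * Real.logb 2 n := by
  refine (closedC hb hE hn hT).trans ?_
  refine add_le_add ?_ le_rfl
  set D : ℝ := (accessCost t q M : ℝ) with hD
  set R : ℝ := (rotations q M : ℝ) with hR
  set V : ℝ := (volume S M : ℝ) with hV
  have hD0 : 0 ≤ D := by positivity
  have hR0 : 0 ≤ R := by positivity
  have hV0 : 0 ≤ V := by positivity
  have h1 := two_log hD0 hR0 hV0
  have h2 : Real.logb 2 (1 + V / (D + R)) ≤ Real.logb 2 (1 + V / R) := by
    rcases hR0.eq_or_lt with h | hR1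
    · have : V = 0 := by
        rw [hV, volume_zero hE (by
          have : (rotations q M : ℝ) = 0 := by rw [← hR]; exact h.symm
          exact_mod_cast this)]
        simp
      rw [this]; simp
    · refine logb_mono (by positivity) ?_
      gcongr
      linarith
  have h3 : (D + R) * Real.logb 2 (1 + V / (D + R)) ≤ (D + R) * Real.logb 2 (1 + V / R) :=
    mul_le_mul_of_nonneg_left h2 (by linarith)
  nlinarith

end

end Pool.Agent.Helper59.SP
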