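import Pool.Graph.R_seed8.TH49.Spl.Pot
import Pool.Graph.R_seed8.H581R2.SplayRun

set_option autoImplicit false

/-! Rotations with the list of the keys of the rotated subtree, and timelines of trees. -/

namespace Pool.Agent.Helper59.SP

open Pool.Agent.H581R2.Splay Tr

/-- `RotAt T T' p c S`: the tree `T'` arises from `T` by one rotation, at the edge between the node
with key `p` and its child with key `c`; `S` is the list of the keys of the rotated subtree, that is
of the subtree of `T` with root `p`. -/
inductive RotAt : Tr → Tr → ℕ → ℕ → List ℕ → Prop
  | right (a b : ℕ) (A B C : Tr) :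
      RotAt (node a (node b A B) C) (node b A (node a B C)) a b (keys (node a (node b A B) C))
  | left (a b : ℕ) (A B C : Tr) :
      RotAt (node b A (node a B C)) (node a (node b A B) C) b a (keys (node b A (node a B C)))
  | inl (p c a : ℕ) (L L' R : Tr) (S : List ℕ) : RotAt L L' p c S →
      RotAt (node a L R) (node a L' R) p c S
  | inr (p c a : ℕ) (L R R' : Tr) (S : List ℕ) : RotAt R R' p c S →
      RotAt (node a L R) (node a L R') p c S

/-- one step of a timeline: nothing happens, or a rotation at an edge whose end points are in `K`;
the list consists of the touched keys -/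
inductive Stp (K : Finset ℕ) : Tr → Tr → List ℕ → Prop
  | same (t : Tr) : Stp K t t []
  | rot (t t' : Tr) (p c : ℕ) (S : List ℕ) : RotAt t t' p c S → p ∈ K → c ∈ K → Stp K t t' S

theorem rotAt_keys {T T' : Tr} {p c : ℕ} {S : List ℕ} (h : RotAt T T' p c S) : keys T' = keys T := by
  induction h with
  | right a b A B C => simp [keys]
  | left a b A B C => simp [keys]
  | inl p c a L L' R S _ ih => simp [keys, ih]
  | inr p c a L R R' S _ ih => simp [keys, ih]

theorem rotAt_sub {T T' : Tr} {p c : ℕ} {S : List ℕ} (h : RotAt T T' p c S) :
    ∀ y ∈ S, y ∈ keys T := by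
  induction h with
  | right a b A B C => exact fun y hy => hy
  | left a b A B C => exact fun y hy => hy
  | inl p c a L L' R S _ ih => intro y hy; simp [keys, ih y hy]
  | inr p c a L R R' S _ ih => intro y hy; simp [keys, ih y hy]

theorem stp_keys {K : Finset ℕ} {T T' : Tr} {S : List ℕ} (h : Stp K T T' S) : keys T' = keys T := by
  cases h with
  | same => rfl
  | rot => rename_i h; exact rotAt_keys h

/-- the key at the root -/
def rootKey : Tr → ℕ
  | nil => 0
  | node a _ _ => a

def lc : Tr → Tr
  | nil => nil
  | node _ l _ => l

def rc : Tr → Tr
  | nil => nil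
  | node _ _ r => r

/-- if the key at the root changes then every key is touched -/
theorem stp_root {K : Finset ℕ} {T T' : Tr} {S : List ℕ} (h : Stp K T T' S)
    (hr : rootKey T' ≠ rootKey T) : ∀ y ∈ keys T, y ∈ S := by
  cases h with
  | same => exact absurd rfl hr
  | rot =>
    rename_i h
    cases h with
    | right a b A B C => exact fun y hy => hy
    | left a b A B C => exact fun y hy => hy
    | inl p c a L L' R S _ => exact absurd rfl hr
    | inr p c a L R R' S _ => exact absurd rfl hr

/-- if the key at the root does not change, then the left subtrees and the right subtrees are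
related by a step -/
theorem stp_sub {K : Finset ℕ} {T T' : Tr} {S : List ℕ} (h : Stp K T T' S) (hb : IsBST T)
    {ρ : ℕ} (hr1 : rootKey T = ρ) (hr : rootKey T' = ρ) :
    Stp K (lc T) (lc T') (S.filter fun y => y < ρ) ∧
      Stp K (rc T) (rc T') (S.filter fun y => ρ < y) := by
  cases h with
  | same => exact ⟨Stp.same _, Stp.same _⟩
  | rot =>
    rename_i p c h1 h2 h
    cases h with
    | right A B C =>
      obtain ⟨_, _, g3, _⟩ := bst_node hb
      have := g3 c (by simp [keys])
      simp only [rootKey] at hr hr1
      omega
    | left A B C =>
      obtain ⟨_, _, _, g4⟩ := bst_node hb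
      have := g4 c (by simp [keys])
      simp only [rootKey] at hr hr1
      omega
    | inl p c a L L' R S h =>
      obtain ⟨_, _, g3, _⟩ := bst_node hb
      simp only [rootKey] at hr1
      subst hr1
      have hs : ∀ y ∈ S, y < a := fun y hy => g3 y (rotAt_sub h y hy)
      have e1 : S.filter (fun y => decide (y < a)) = S := by
        rw [List.filter_eq_self]
        intro y hy
        simp [hs y hy]
      have e2 : S.filter (fun y => decide (a < y)) = [] := by
        rw [List.filter_eq_nil_iff]
        intro y hy
        have := hs y hy
        simp only [decide_eq_true_eq]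
        omega
      simp only [lc, rc]
      rw [e1, e2]
      exact ⟨Stp.rot _ _ p c _ h h1 h2, Stp.same _⟩
    | inr p c a L R R' S h =>
      obtain ⟨_, _, _, g4⟩ := bst_node hb
      simp only [rootKey] at hr1
      subst hr1
      have hs : ∀ y ∈ S, a < y := fun y hy => g4 y (rotAt_sub h y hy)
      have e1 : S.filter (fun y => decide (a < y)) = S := by
        rw [List.filter_eq_self]
        intro y hy
        simp [hs y hy]
      have e2 : S.filter (fun y => decide (y < a)) = [] := by
        rw [List.filter_eq_nil_iff]
        intro y hy
        have := hs y hy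
        simp only [decide_eq_true_eq]
        omega
      simp only [lc, rc]
      rw [e1, e2]
      exact ⟨Stp.same _, Stp.rot _ _ p c _ h h1 h2⟩

end Pool.Agent.Helper59.SP
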