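import Pool.Agent.Helper59.SP.Defs

set_option autoImplicit false

/-! The Kraft type inequality for keys with few touches since their time stamp. -/

namespace Pool.Agent.Helper59.SP

open Pool.Agent.H581R2.Splay Tr Finset

/-- number of the steps in `[a, b)` which touch `y` -/
def cnt (Z : ℕ → List ℕ) (y a b : ℕ) : ℕ := ((Ico a b).filter fun i => y ∈ Z i).card

/-- the weight of a key of depth `D` at its time stamp and with `P` touches since then -/
noncomputable def v (D P : ℕ) : ℝ := (1 / 8) ^ (D + 1) * ((1 + (P : ℝ) / (D + 1))⁻¹) ^ (2 * (D + 1))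

theorem v_pos (D P : ℕ) : 0 < v D P := by
  unfold v
  positivity

theorem v_mono {D P P' : ℕ} (h : P ≤ P') : v D P' ≤ v D P := by
  unfold v
  have h1 : (P : ℝ) ≤ P' := by exact_mod_cast h
  gcongr

theorem v_zero (P : ℕ) : v 0 P = 1 / 8 * ((1 + (P : ℝ))⁻¹) ^ 2 := by
  simp [v]

theorem bern (D P k : ℕ) : (1 + (k : ℝ)) * (1 + (P : ℝ) / (D + 1)) ^ (D + 1) ≤
    (1 + ((P : ℝ) + k) / ((D : ℝ) + 1 + 1)) ^ (D + 1 + 1) := by
  have hD : (0 : ℝ) < D + 1 := by positivity
  set β : ℝ := 1 + (P : ℝ) / (D + 1) with hβ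
  have hβ0 : 0 < β := by positivity
  set x : ℝ := (1 + (k : ℝ) - β) / (((D : ℝ) + 1 + 1) * β) with hx
  have hx2 : -2 ≤ x := by
    rw [hx, le_div_iff₀ (by positivity)]
    have : (0 : ℝ) ≤ k := by positivity
    nlinarith
  have h1 := one_add_mul_le_pow hx2 (D + 1 + 1)
  have h2 : 1 + ((D + 1 + 1 : ℕ) : ℝ) * x = (1 + k) / β := by
    rw [hx]
    push_cast
    field_simp
    ring
  rw [h2] at h1
  have h3 : 1 + ((P : ℝ) + k) / ((D : ℝ) + 1 + 1) = β * (1 + x) := by
    rw [hx, hβ]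
    field_simp
    ring
  rw [h3, mul_pow]
  calc (1 + (k : ℝ)) * β ^ (D + 1) = β ^ (D + 1 + 1) * ((1 + k) / β) := by
        field_simp; ring
    _ ≤ β ^ (D + 1 + 1) * (1 + x) ^ (D + 1 + 1) := by gcongr

theorem v_succ (D P k : ℕ) : v (D + 1) (P + k) ≤ 1 / 8 * ((1 + (k : ℝ))⁻¹) ^ 2 * v D P := by
  have h := bern D P k
  have hb : 0 < (1 + (k : ℝ)) * (1 + (P : ℝ) / (D + 1)) ^ (D + 1) := by positivity
  have h1 : v (D + 1) (P + k) = (1 / 8) ^ (D + 1 + 1) *
      (((1 + ((P : ℝ) + k) / ((D : ℝ) + 1 + 1)) ^ (D + 1 + 1))⁻¹) ^ 2 := by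
    unfold v
    push_cast
    rw [inv_pow, inv_pow, ← pow_mul]
    ring_nf
  have h2 : 1 / 8 * ((1 + (k : ℝ))⁻¹) ^ 2 * v D P = (1 / 8) ^ (D + 1 + 1) *
      (((1 + (k : ℝ)) * (1 + (P : ℝ) / (D + 1)) ^ (D + 1))⁻¹) ^ 2 := by
    unfold v
    rw [mul_inv, mul_pow, inv_pow, inv_pow, inv_pow, ← pow_mul]
    ring_nf
  rw [h1, h2]
  gcongr

/-- the bound in the Kraft inequality -/
noncomputable def bd (k : ℕ) : ℝ := 1 / (4 * (k : ℝ) + 2)

theorem bd_step (k : ℕ) : 1 / 4 * ((1 + (k : ℝ))⁻¹) ^ 2 + bd (k + 1) ≤ bd k := by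
  unfold bd
  push_cast
  have hk : (0 : ℝ) ≤ k := by positivity
  rw [inv_pow, ← one_div]
  rw [div_mul_div_comm, div_add_div _ _ (by positivity) (by positivity),
    div_le_div_iff₀ (by positivity) (by positivity)]
  nlinarith [sq_nonneg (k : ℝ)]

theorem bd_one (k : ℕ) : 1 / 4 * ((1 + (k : ℝ))⁻¹) ^ 2 ≤ bd k := by
  have := bd_step k
  have h2 : 0 ≤ bd (k + 1) := by unfold bd; positivity
  linarith

/-- a timeline of trees between the times `a` and `b` -/
def TL (K : Finset ℕ) (τ : ℕ → Tr) (Z : ℕ → List ℕ) (a b : ℕ) : Prop :=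
  ∀ i, a ≤ i → i < b → Stp K (τ i) (τ (i + 1)) (Z i)

theorem TL.keys_eq {K : Finset ℕ} {τ : ℕ → Tr} {Z : ℕ → List ℕ} {a b : ℕ} (h : TL K τ Z a b) :
    ∀ i, a ≤ i → i ≤ b → keys (τ i) = keys (τ a) := by
  intro i hai
  induction i, hai using Nat.le_induction with
  | base => intro _; rfl
  | succ i hai ih =>
    intro hib
    rw [stp_keys (h i hai (by omega)), ih (by omega)]

theorem TL.bst {K : Finset ℕ} {τ : ℕ → Tr} {Z : ℕ → List ℕ} {a b : ℕ} (h : TL K τ Z a b)
    (hb : IsBST (τ a)) : ∀ i, a ≤ i → i ≤ b → IsBST (τ i) := by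
  intro i h1 h2
  unfold IsBST
  rw [h.keys_eq i h1 h2]
  exact hb

theorem eq_node_of_root {t : Tr} {ρ : ℕ} (hn : t ≠ nil) (hr : rootKey t = ρ) :
    t = node ρ (lc t) (rc t) := by
  cases t with
  | nil => exact absurd rfl hn
  | node a l r => simp only [rootKey] at hr; subst hr; rfl

/-- the hypothesis of the induction -/
def KH (K : Finset ℕ) (N : ℕ) : Prop :=
  ∀ (τ : ℕ → Tr) (Z : ℕ → List ℕ) (a b : ℕ), a ≤ b → IsBST (τ a) → (keys (τ a)).length ≤ N →
    TL K τ Z a b → ∀ (Y : Finset ℕ) (ℓ : ℕ → ℕ),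
    (∀ y ∈ Y, y ∈ keys (τ a) ∧ a ≤ ℓ y ∧ ℓ y ≤ b) → ∀ k : ℕ,
    ∑ y ∈ Y, v (dep y (τ (ℓ y))) (cnt Z y (ℓ y) b + k) ≤ bd k

theorem kraftA {K : Finset ℕ} {N : ℕ} (IH : KH K N) {τ : ℕ → Tr} {Z : ℕ → List ℕ} {a b : ℕ}
    (hab : a ≤ b) (hb : IsBST (τ a)) (hN : (keys (τ a)).length ≤ N + 1) (hst : TL K τ Z a b)
    (hroot : ∀ i, a ≤ i → i ≤ b → rootKey (τ i) = rootKey (τ a)) (Y : Finset ℕ) (ℓ : ℕ → ℕ)
    (hY : ∀ y ∈ Y, y ∈ keys (τ a) ∧ a ≤ ℓ y ∧ ℓ y ≤ b) (k : ℕ) :
    ∑ y ∈ Y, v (dep y (τ (ℓ y))) (cnt Z y (ℓ y) b + k) ≤ 1 / 4 * ((1 + (k : ℝ))⁻¹) ^ 2 := by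
  by_cases hnil : τ a = nil
  · have hYe : Y = ∅ := by
      rw [Finset.eq_empty_iff_forall_notMem]
      intro y hy
      have := (hY y hy).1
      rw [hnil] at this
      simp [keys] at this
    rw [hYe, Finset.sum_empty]
    positivity
  set ρ := rootKey (τ a) with hρ
  have hnode : ∀ i, a ≤ i → i ≤ b → τ i = node ρ (lc (τ i)) (rc (τ i)) := by
    intro i h1 h2
    refine eq_node_of_root ?_ (hroot i h1 h2)
    intro hn
    have := hst.keys_eq i h1 h2
    rw [hn] at this
    have h3 := eq_node_of_root hnil rfl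
    rw [h3] at this
    simp [keys] at this
  have ha := hnode a le_rfl hab
  have hbst : ∀ i, a ≤ i → i ≤ b → IsBST (τ i) := hst.bst hb
  obtain ⟨g1, g2, g3, g4⟩ := bst_node (a := ρ) (l := lc (τ a)) (r := rc (τ a)) (by rw [← ha]; exact hb)
  have hka : keys (τ a) = keys (lc (τ a)) ++ ρ :: keys (rc (τ a)) := by
    conv_lhs => rw [ha]
    rfl
  have hlen : (keys (lc (τ a))).length + (keys (rc (τ a))).length ≤ N := by
    rw [hka] at hN
    simp at hN
    omega
  have hL : TL K (fun i => lc (τ i)) (fun i => (Z i).filter fun y => y < ρ) a b := by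
    intro i h1 h2
    exact (stp_sub (hst i h1 h2) (hbst i h1 h2.le) (hroot i h1 h2.le)
      (hroot (i + 1) (by omega) (by omega))).1
  have hR : TL K (fun i => rc (τ i)) (fun i => (Z i).filter fun y => ρ < y) a b := by
    intro i h1 h2
    exact (stp_sub (hst i h1 h2) (hbst i h1 h2.le) (hroot i h1 h2.le)
      (hroot (i + 1) (by omega) (by omega))).2
  have sL := IH _ _ a b hab g1 (by omega) hL (Y.filter fun y => y < ρ) ℓ (by
    intro y hy
    rw [Finset.mem_filter] at hy
    obtain ⟨h1, h2, h3⟩ := hY y hy.1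
    refine ⟨?_, h2, h3⟩
    rw [hka] at h1
    simp only [List.mem_append, List.mem_cons] at h1
    rcases h1 with h1 | h1 | h1
    · exact h1
    · omega
    · have := g4 y h1; omega) 0
  have sR := IH _ _ a b hab g2 (by omega) hR (Y.filter fun y => ρ < y) ℓ (by
    intro y hy
    rw [Finset.mem_filter] at hy
    obtain ⟨h1, h2, h3⟩ := hY y hy.1
    refine ⟨?_, h2, h3⟩
    rw [hka] at h1
    simp only [List.mem_append, List.mem_cons] at h1
    rcases h1 with h1 | h1 | h1
    · have := g3 y h1; omega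
    · omega
    · exact h1) 0
  have hbd0 : bd 0 = 1 / 2 := by unfold bd; norm_num
  rw [hbd0] at sL sR
  set c : ℝ := 1 / 8 * ((1 + (k : ℝ))⁻¹) ^ 2 with hc
  have hc0 : 0 ≤ c := by positivity
  have tL : ∑ y ∈ Y.filter (fun y => y < ρ), v (dep y (τ (ℓ y))) (cnt Z y (ℓ y) b + k) ≤
      c * (1 / 2) := by
    refine le_trans ?_ (mul_le_mul_of_nonneg_left sL hc0)
    rw [Finset.mul_sum]
    refine Finset.sum_le_sum fun y hy => ?_
    rw [Finset.mem_filter] at hy
    obtain ⟨h1, h2, h3⟩ := hY y hy.1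
    have e1 : dep y (τ (ℓ y)) = dep y (lc (τ (ℓ y))) + 1 := by
      conv_lhs => rw [hnode _ h2 h3]
      exact dep_l hy.2
    have e2 : cnt (fun i => (Z i).filter fun y => y < ρ) y (ℓ y) b = cnt Z y (ℓ y) b := by
      unfold cnt
      congr 1
      ext i
      simp [hy.2]
    rw [e1, e2]
    exact v_succ _ _ _
  have tR : ∑ y ∈ Y.filter (fun y => ρ < y), v (dep y (τ (ℓ y))) (cnt Z y (ℓ y) b + k) ≤
      c * (1 / 2) := by
    refine le_trans ?_ (mul_le_mul_of_nonneg_left sR hc0)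
    rw [Finset.mul_sum]
    refine Finset.sum_le_sum fun y hy => ?_
    rw [Finset.mem_filter] at hy
    obtain ⟨h1, h2, h3⟩ := hY y hy.1
    have e1 : dep y (τ (ℓ y)) = dep y (rc (τ (ℓ y))) + 1 := by
      conv_lhs => rw [hnode _ h2 h3]
      exact dep_r hy.2
    have e2 : cnt (fun i => (Z i).filter fun y => ρ < y) y (ℓ y) b = cnt Z y (ℓ y) b := by
      unfold cnt
      congr 1
      ext i
      simp [hy.2]
    rw [e1, e2]
    exact v_succ _ _ _
  have tM : ∑ y ∈ Y.filter (fun y => y = ρ), v (dep y (τ (ℓ y))) (cnt Z y (ℓ y) b + k) ≤ c := by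
    have hsub : Y.filter (fun y => y = ρ) ⊆ {ρ} := by
      intro y hy
      rw [Finset.mem_filter] at hy
      simp [hy.2]
    by_cases hρY : ρ ∈ Y
    · have : Y.filter (fun y => y = ρ) = {ρ} := by
        apply Finset.Subset.antisymm hsub
        intro y hy
        rw [Finset.mem_singleton] at hy
        subst hy
        simp [hρY]
      rw [this, Finset.sum_singleton]
      obtain ⟨h1, h2, h3⟩ := hY ρ hρY
      have e1 : dep ρ (τ (ℓ ρ)) = 0 := by
        conv_lhs => rw [hnode _ h2 h3]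
        exact dep_a
      rw [e1]
      refine le_trans (v_mono (P := k) (by omega)) ?_
      rw [v_zero]
    · have : Y.filter (fun y => y = ρ) = ∅ := by
        rw [Finset.eq_empty_iff_forall_notMem]
        intro y hy
        rw [Finset.mem_filter] at hy
        exact hρY (hy.2 ▸ hy.1)
      rw [this, Finset.sum_empty]
      exact hc0
  have hsplit : ∑ y ∈ Y, v (dep y (τ (ℓ y))) (cnt Z y (ℓ y) b + k) =
      ∑ y ∈ Y.filter (fun y => y < ρ), v (dep y (τ (ℓ y))) (cnt Z y (ℓ y) b + k) +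
      (∑ y ∈ Y.filter (fun y => y = ρ), v (dep y (τ (ℓ y))) (cnt Z y (ℓ y) b + k) +
      ∑ y ∈ Y.filter (fun y => ρ < y), v (dep y (τ (ℓ y))) (cnt Z y (ℓ y) b + k)) := by
    rw [← Finset.sum_filter_add_sum_filter_not Y (fun y => y < ρ)]
    congr 1
    rw [← Finset.sum_filter_add_sum_filter_not (Y.filter fun y => ¬ y < ρ) (fun y => y = ρ)]
    congr 1
    · refine Finset.sum_congr ?_ fun _ _ => rfl
      ext y
      simp only [Finset.mem_filter]
      constructor
      · rintro ⟨⟨h1, _⟩, h2⟩; exact ⟨h1, h2⟩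
      · rintro ⟨h1, h2⟩; exact ⟨⟨h1, by omega⟩, h2⟩
    · refine Finset.sum_congr ?_ fun _ _ => rfl
      ext y
      simp only [Finset.mem_filter]
      constructor
      · rintro ⟨⟨h1, h3⟩, h2⟩; exact ⟨h1, by omega⟩
      · rintro ⟨h1, h2⟩; exact ⟨⟨h1, by omega⟩, by omega⟩
  rw [hsplit]
  have : 1 / 4 * ((1 + (k : ℝ))⁻¹) ^ 2 = c * (1 / 2) + (c + c * (1 / 2)) := by rw [hc]; ring
  rw [this]
  linarith

theorem kraft_step {K : Finset ℕ} {N : ℕ} (IH : KH K N) : KH K (N + 1) := by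
  intro τ Z a b hab hb hN hst Y ℓ hY k
  induction hd : b - a using Nat.strong_induction_on generalizing b Y k with
  | _ d ih =>
    set s := (Finset.Ico a b).filter fun j => rootKey (τ (j + 1)) ≠ rootKey (τ j) with hs
    by_cases hse : s = ∅
    · refine le_trans (kraftA IH hab hb hN hst ?_ Y ℓ hY k) (bd_one k)
      intro i hai
      induction i, hai using Nat.le_induction with
      | base => intro _; rfl
      | succ i hai ih2 =>
        intro hib
        have h1 : i ∉ s := by rw [hse]; simp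
        rw [hs, Finset.mem_filter, not_and, not_not, Finset.mem_Ico] at h1
        rw [h1 ⟨hai, by omega⟩]
        exact ih2 (by omega)
    · have hne : s.Nonempty := Finset.nonempty_iff_ne_empty.2 hse
      set j := s.max' hne with hj
      have hjs : j ∈ s := s.max'_mem hne
      rw [hs, Finset.mem_filter, Finset.mem_Ico] at hjs
      obtain ⟨⟨hj1, hj2⟩, hj3⟩ := hjs
      have hlast : ∀ i, j < i → i < b → rootKey (τ (i + 1)) = rootKey (τ i) := by
        intro i h1 h2
        by_contra hcon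
        have : i ∈ s := by
          rw [hs, Finset.mem_filter, Finset.mem_Ico]
          exact ⟨⟨by omega, h2⟩, hcon⟩
        have := s.le_max' i this
        omega
      have hst1 : TL K τ Z a j := fun i h1 h2 => hst i h1 (by omega)
      have hst2 : TL K τ Z (j + 1) b := fun i h1 h2 => hst i (by omega) h2
      have hroot2 : ∀ i, j + 1 ≤ i → i ≤ b → rootKey (τ i) = rootKey (τ (j + 1)) := by
        intro i hai
        induction i, hai using Nat.le_induction with
        | base => intro _; rfl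
        | succ i hai ih2 =>
          intro hib
          rw [hlast i (by omega) (by omega)]
          exact ih2 (by omega)
      have hk2 : keys (τ (j + 1)) = keys (τ a) := hst.keys_eq (j + 1) (by omega) (by omega)
      have b2 := kraftA IH (τ := τ) (Z := Z) (a := j + 1) (b := b) (by omega)
        (hst.bst hb (j + 1) (by omega) (by omega)) (by rw [hk2]; exact hN) hst2 hroot2
        (Y.filter fun y => ¬ ℓ y ≤ j) ℓ (by
          intro y hy
          rw [Finset.mem_filter] at hy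
          obtain ⟨h1, h2, h3⟩ := hY y hy.1
          exact ⟨by rw [hk2]; exact h1, by omega, h3⟩) k
      have b1 := ih (j - a) (by omega) j (by omega) hst1 (Y.filter fun y => ℓ y ≤ j) (by
          intro y hy
          rw [Finset.mem_filter] at hy
          obtain ⟨h1, h2, h3⟩ := hY y hy.1
          exact ⟨h1, h2, hy.2⟩) (k + 1) rfl
      have b3 : ∑ y ∈ Y.filter (fun y => ℓ y ≤ j), v (dep y (τ (ℓ y))) (cnt Z y (ℓ y) b + k) ≤
          ∑ y ∈ Y.filter (fun y => ℓ y ≤ j), v (dep y (τ (ℓ y))) (cnt Z y (ℓ y) j + (k + 1)) := by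
        refine Finset.sum_le_sum fun y hy => v_mono ?_
        rw [Finset.mem_filter] at hy
        obtain ⟨h1, h2, h3⟩ := hY y hy.1
        have hyj : y ∈ Z j := stp_root (hst j hj1 hj2) hj3 y (by
          rw [hst.keys_eq j hj1 hj2.le]; exact h1)
        have : insert j ((Finset.Ico (ℓ y) j).filter fun i => y ∈ Z i) ⊆
            (Finset.Ico (ℓ y) b).filter fun i => y ∈ Z i := by
          intro i hi
          rw [Finset.mem_insert] at hi
          rw [Finset.mem_filter, Finset.mem_Ico]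
          rcases hi with rfl | hi
          · exact ⟨⟨hy.2, hj2⟩, hyj⟩
          · rw [Finset.mem_filter, Finset.mem_Ico] at hi
            exact ⟨⟨hi.1.1, by omega⟩, hi.2⟩
        have h5 := Finset.card_le_card this
        rw [Finset.card_insert_of_notMem (by simp)] at h5
        unfold cnt
        omega
      rw [← Finset.sum_filter_add_sum_filter_not Y (fun y => ℓ y ≤ j)]
      have := bd_step k
      linarith

theorem kraft (K : Finset ℕ) (N : ℕ) : KH K N := by
  induction N with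
  | zero =>
    intro τ Z a b hab hb hN hst Y ℓ hY k
    have hYe : Y = ∅ := by
      rw [Finset.eq_empty_iff_forall_notMem]
      intro y hy
      have h1 := (hY y hy).1
      have h2 : keys (τ a) = [] := List.length_eq_zero_iff.1 (by omega)
      rw [h2] at h1
      simp at h1
    rw [hYe, Finset.sum_empty]
    unfold bd
    positivity
  | succ N ih => exact kraft_step ih

end Pool.Agent.Helper59.SP
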