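import Pool.Agent.Helper59.SP.Kraft

set_option autoImplicit false

/-! Two more Kraft type inequalities: few rotations since the time stamp, and few rotated keys. -/

namespace Pool.Agent.Helper59.SP

open Pool.Agent.H581R2.Splay Tr Finset

/-- splitting a finite set of keys at the root -/
theorem sum_split (Y : Finset ℕ) (ρ : ℕ) (f : ℕ → ℝ) :
    ∑ y ∈ Y, f y = ∑ y ∈ Y.filter (fun y => y < ρ), f y + (∑ y ∈ Y.filter (fun y => y = ρ), f y +
      ∑ y ∈ Y.filter (fun y => ρ < y), f y) := by
  rw [← Finset.sum_filter_add_sum_filter_not Y (fun y => y < ρ)]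
  congr 1
  rw [← Finset.sum_filter_add_sum_filter_not (Y.filter fun y => ¬ y < ρ) (fun y => y = ρ)]
  congr 1
  · refine Finset.sum_congr ?_ fun _ _ => rfl
    ext y
    simp only [Finset.mem_filter]
    constructor
    · rintro ⟨⟨h1, _⟩, h2⟩; exact ⟨h1, h2⟩
    · rintro ⟨h1, h2⟩; exact ⟨⟨h1, by omega⟩, h2⟩
  · refine Finset.sum_congr ?_ fun _ _ => rfl
    ext y
    simp only [Finset.mem_filter]
    constructor
    · rintro ⟨⟨h1, h3⟩, h2⟩; exact ⟨h1, by omega⟩
    · rintro ⟨h1, h2⟩; exact ⟨⟨h1, by omega⟩, by omega⟩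

theorem sum_root_le {Y : Finset ℕ} {ρ : ℕ} {f : ℕ → ℝ} {c : ℝ} (hc : 0 ≤ c) (hf : f ρ ≤ c) :
    ∑ y ∈ Y.filter (fun y => y = ρ), f y ≤ c := by
  by_cases hρY : ρ ∈ Y
  · have : Y.filter (fun y => y = ρ) = {ρ} := by
      ext y
      rw [Finset.mem_filter, Finset.mem_singleton]
      constructor
      · exact fun h => h.2
      · rintro rfl; exact ⟨hρY, rfl⟩
    rw [this, Finset.sum_singleton]
    exact hf
  · have : Y.filter (fun y => y = ρ) = ∅ := by
      rw [Finset.eq_empty_iff_forall_notMem]
      intro y hy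
      rw [Finset.mem_filter] at hy
      exact hρY (hy.2 ▸ hy.1)
    rw [this, Finset.sum_empty]
    exact hc

theorem split_mem {t : Tr} {ρ : ℕ} {l r : Tr} (ht : t = node ρ l r) (hb : IsBST t) {y : ℕ}
    (hy : y ∈ keys t) : (y < ρ → y ∈ keys l) ∧ (ρ < y → y ∈ keys r) := by
  subst ht
  obtain ⟨_, _, g3, g4⟩ := bst_node hb
  simp only [keys, List.mem_append, List.mem_cons] at hy
  constructor
  · intro h
    rcases hy with h1 | h1 | h1
    · exact h1
    · omega
    · have := g4 y h1; omega
  · intro h
    rcases hy with h1 | h1 | h1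
    · have := g3 y h1; omega
    · omega
    · exact h1

theorem static_kraft : ∀ (t : Tr), IsBST t → ∀ Y : Finset ℕ, (∀ y ∈ Y, y ∈ keys t) →
    ∑ y ∈ Y, ((1 : ℝ) / 4) ^ (dep y t + 1) ≤ 1 / 2 := by
  intro t
  induction t with
  | nil =>
    intro _ Y hY
    have hYe : Y = ∅ := by
      rw [Finset.eq_empty_iff_forall_notMem]
      intro y hy
      simpa [keys] using hY y hy
    rw [hYe, Finset.sum_empty]
    norm_num
  | node a l r ihl ihr =>
    intro hb Y hY
    obtain ⟨g1, g2, g3, g4⟩ := bst_node hb
    have sL := ihl g1 (Y.filter fun y => y < a) (by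
      intro y hy
      rw [Finset.mem_filter] at hy
      exact (split_mem rfl hb (hY y hy.1)).1 hy.2)
    have sR := ihr g2 (Y.filter fun y => a < y) (by
      intro y hy
      rw [Finset.mem_filter] at hy
      exact (split_mem rfl hb (hY y hy.1)).2 hy.2)
    rw [sum_split Y a]
    have tL : ∑ y ∈ Y.filter (fun y => y < a), ((1 : ℝ) / 4) ^ (dep y (node a l r) + 1) ≤
        1 / 4 * (1 / 2) := by
      refine le_trans (le_of_eq ?_) (mul_le_mul_of_nonneg_left sL (by norm_num))
      rw [Finset.mul_sum]
      refine Finset.sum_congr rfl fun y hy => ?_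
      rw [Finset.mem_filter] at hy
      rw [dep_l hy.2, pow_succ]
      ring
    have tR : ∑ y ∈ Y.filter (fun y => a < y), ((1 : ℝ) / 4) ^ (dep y (node a l r) + 1) ≤
        1 / 4 * (1 / 2) := by
      refine le_trans (le_of_eq ?_) (mul_le_mul_of_nonneg_left sR (by norm_num))
      rw [Finset.mul_sum]
      refine Finset.sum_congr rfl fun y hy => ?_
      rw [Finset.mem_filter] at hy
      rw [dep_r hy.2, pow_succ]
      ring
    have tM := sum_root_le (Y := Y) (ρ := a) (f := fun y => ((1 : ℝ) / 4) ^ (dep y (node a l r) + 1))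
      (c := 1 / 4) (by norm_num) (by simp [dep_a])
    linarith

/-- the weight of a key of depth `D` at its time stamp and with `R` rotations since then -/
noncomputable def u (D R : ℕ) : ℝ := (1 / 4) ^ (D + 1) * ((1 + (R : ℝ))⁻¹) ^ 2

theorem u_pos (D R : ℕ) : 0 < u D R := by unfold u; positivity

theorem u_mono {D R R' : ℕ} (h : R ≤ R') : u D R' ≤ u D R := by
  unfold u
  have h1 : (R : ℝ) ≤ R' := by exact_mod_cast h
  gcongr

noncomputable def bdU (k : ℕ) : ℝ := 1 / (2 * (k : ℝ) + 1)

theorem bdU_step (k : ℕ) : 1 / 2 * ((1 + (k : ℝ))⁻¹) ^ 2 + bdU (k + 1) ≤ bdU k := by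
  unfold bdU
  push_cast
  have hk : (0 : ℝ) ≤ k := by positivity
  rw [inv_pow, ← one_div]
  rw [div_mul_div_comm, div_add_div _ _ (by positivity) (by positivity),
    div_le_div_iff₀ (by positivity) (by positivity)]
  nlinarith [sq_nonneg (k : ℝ)]

theorem bdU_one (k : ℕ) : 1 / 2 * ((1 + (k : ℝ))⁻¹) ^ 2 ≤ bdU k := by
  have := bdU_step k
  have h2 : 0 ≤ bdU (k + 1) := by unfold bdU; positivity
  linarith

/-- the number of the times in `[a, b)` at which `r` holds -/
def cntP (r : ℕ → Prop) [DecidablePred r] (a b : ℕ) : ℕ := ((Ico a b).filter r).card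

theorem kraftU (τ : ℕ → Tr) (r : ℕ → Prop) [DecidablePred r] (a b : ℕ) (hab : a ≤ b)
    (hb : ∀ i, a ≤ i → i ≤ b → IsBST (τ i))
    (hst : ∀ i, a ≤ i → i < b → ¬ r i → τ (i + 1) = τ i) (Y : Finset ℕ) (ℓ : ℕ → ℕ)
    (hY : ∀ y ∈ Y, y ∈ keys (τ (ℓ y)) ∧ a ≤ ℓ y ∧ ℓ y ≤ b) (k : ℕ) :
    ∑ y ∈ Y, u (dep y (τ (ℓ y))) (cntP r (ℓ y) b + k) ≤ bdU k := by
  induction hd : b - a using Nat.strong_induction_on generalizing b Y k with
  | _ d ih =>
    -- constant timelines
    have key : ∀ (a' : ℕ) (Y : Finset ℕ), a ≤ a' → a' ≤ b →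
        (∀ i, a' ≤ i → i < b → ¬ r i) →
        (∀ y ∈ Y, y ∈ keys (τ (ℓ y)) ∧ a' ≤ ℓ y ∧ ℓ y ≤ b) →
        ∑ y ∈ Y, u (dep y (τ (ℓ y))) (cntP r (ℓ y) b + k) ≤ 1 / 2 * ((1 + (k : ℝ))⁻¹) ^ 2 := by
      intro a' Y ha' hab' hr hY
      have hc : ∀ i, a' ≤ i → i ≤ b → τ i = τ a' := by
        intro i hai
        induction i, hai using Nat.le_induction with
        | base => intro _; rfl
        | succ i hai ih2 =>
          intro hib
          rw [hst i (by omega) (by omega) (hr i hai (by omega))]
          exact ih2 (by omega)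
      have h1 := static_kraft (τ a') (hb a' ha' hab') Y (fun y hy => by
        obtain ⟨h1, h2, h3⟩ := hY y hy
        rw [← hc _ h2 h3]
        exact h1)
      have h2 : ∑ y ∈ Y, u (dep y (τ (ℓ y))) (cntP r (ℓ y) b + k) ≤
          (∑ y ∈ Y, ((1 : ℝ) / 4) ^ (dep y (τ a') + 1)) * ((1 + (k : ℝ))⁻¹) ^ 2 := by
        rw [Finset.sum_mul]
        refine Finset.sum_le_sum fun y hy => ?_
        obtain ⟨h1, h2, h3⟩ := hY y hy
        rw [hc _ h2 h3]
        exact u_mono (Nat.le_add_left _ _)
      refine h2.trans ?_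
      gcongr
    set s := (Finset.Ico a b).filter r with hs
    by_cases hse : s = ∅
    · refine le_trans (key a Y le_rfl hab ?_ hY) (bdU_one k)
      intro i h1 h2 h3
      have : i ∈ s := by rw [hs, Finset.mem_filter, Finset.mem_Ico]; exact ⟨⟨h1, h2⟩, h3⟩
      rw [hse] at this
      simp at this
    · have hne : s.Nonempty := Finset.nonempty_iff_ne_empty.2 hse
      set j := s.max' hne with hj
      have hjs : j ∈ s := s.max'_mem hne
      rw [hs, Finset.mem_filter, Finset.mem_Ico] at hjs
      obtain ⟨⟨hj1, hj2⟩, hj3⟩ := hjs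
      have hlast : ∀ i, j + 1 ≤ i → i < b → ¬ r i := by
        intro i h1 h2 h3
        have : i ∈ s := by
          rw [hs, Finset.mem_filter, Finset.mem_Ico]
          exact ⟨⟨by omega, h2⟩, h3⟩
        have := s.le_max' i this
        omega
      have b2 := key (j + 1) (Y.filter fun y => ¬ ℓ y ≤ j) (by omega) (by omega) hlast (by
          intro y hy
          rw [Finset.mem_filter] at hy
          obtain ⟨h1, h2, h3⟩ := hY y hy.1
          exact ⟨h1, by omega, h3⟩)
      have b1 := ih (j - a) (by omega) j (by omega) (fun i h1 h2 => hb i h1 (by omega))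
        (fun i h1 h2 => hst i h1 (by omega)) (Y.filter fun y => ℓ y ≤ j) (by
          intro y hy
          rw [Finset.mem_filter] at hy
          obtain ⟨h1, h2, h3⟩ := hY y hy.1
          exact ⟨h1, h2, hy.2⟩) (k + 1) rfl
      have b3 : ∑ y ∈ Y.filter (fun y => ℓ y ≤ j), u (dep y (τ (ℓ y))) (cntP r (ℓ y) b + k) ≤
          ∑ y ∈ Y.filter (fun y => ℓ y ≤ j), u (dep y (τ (ℓ y))) (cntP r (ℓ y) j + (k + 1)) := by
        refine Finset.sum_le_sum fun y hy => u_mono ?_
        rw [Finset.mem_filter] at hy
        obtain ⟨h1, h2, h3⟩ := hY y hy.1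
        have : insert j ((Finset.Ico (ℓ y) j).filter r) ⊆ (Finset.Ico (ℓ y) b).filter r := by
          intro i hi
          rw [Finset.mem_insert] at hi
          rw [Finset.mem_filter, Finset.mem_Ico]
          rcases hi with rfl | hi
          · exact ⟨⟨hy.2, hj2⟩, hj3⟩
          · rw [Finset.mem_filter, Finset.mem_Ico] at hi
            exact ⟨⟨hi.1.1, by omega⟩, hi.2⟩
        have h5 := Finset.card_le_card this
        rw [Finset.card_insert_of_notMem (by simp)] at h5
        unfold cntP
        omega
      rw [← Finset.sum_filter_add_sum_filter_not Y (fun y => ℓ y ≤ j)]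
      have := bdU_step k
      linarith

/-- the number of the proper ancestors of `y` which are not in `K` -/
def una (K : Finset ℕ) (y : ℕ) : Tr → ℕ
  | nil => 0
  | node a l r => if y = a then 0 else
      (if a ∈ K then 0 else 1) + (if y < a then una K y l else una K y r)

theorem una_le (K : Finset ℕ) (y : ℕ) (t : Tr) : una K y t ≤ dep y t := by
  induction t with
  | nil => simp [una, dep]
  | node a l r ihl ihr =>
    simp only [una, dep]
    split_ifs <;> omega

theorem una_rot {K : Finset ℕ} {T T' : Tr} {p c : ℕ} {S : List ℕ} (h : RotAt T T' p c S)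
    (hp : p ∈ K) (hc : c ∈ K) (y : ℕ) : IsBST T → una K y T' = una K y T := by
  induction h with
  | right a b A B C =>
    intro hb
    obtain ⟨_, _, g3, _⟩ := bst_node hb
    have := g3 b (by simp [keys])
    simp only [una, hp, hc, if_true]
    split_ifs <;> omega
  | left a b A B C =>
    intro hb
    obtain ⟨_, _, _, g4⟩ := bst_node hb
    have := g4 a (by simp [keys])
    simp only [una, hp, hc, if_true]
    split_ifs <;> omega
  | inl p c a L L' R S _ ih =>
    intro hb
    simp only [una, ih hp hc (bst_node hb).1]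
  | inr p c a L R R' S _ ih =>
    intro hb
    simp only [una, ih hp hc (bst_node hb).2.1]

theorem una_stp {K : Finset ℕ} {T T' : Tr} {S : List ℕ} (h : Stp K T T' S) (y : ℕ)
    (hb : IsBST T) : una K y T' = una K y T := by
  cases h with
  | same => rfl
  | rot => rename_i p c h1 h2 h; exact una_rot h h1 h2 y hb

theorem una_kraft (K : Finset ℕ) : ∀ (t : Tr), IsBST t → ∀ Y : Finset ℕ, (∀ y ∈ Y, y ∈ keys t) →
    ∑ y ∈ Y, ((1 : ℝ) / 4) ^ (una K y t + 1) ≤
      (2 * ((K.filter fun y => y ∈ keys t).card : ℝ) + 1) / 2 := by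
  intro t
  induction t with
  | nil =>
    intro _ Y hY
    have hYe : Y = ∅ := by
      rw [Finset.eq_empty_iff_forall_notMem]
      intro y hy
      simpa [keys] using hY y hy
    rw [hYe, Finset.sum_empty]
    positivity
  | node a l r ihl ihr =>
    intro hb Y hY
    obtain ⟨g1, g2, g3, g4⟩ := bst_node hb
    have sL := ihl g1 (Y.filter fun y => y < a) (by
      intro y hy
      rw [Finset.mem_filter] at hy
      exact (split_mem rfl hb (hY y hy.1)).1 hy.2)
    have sR := ihr g2 (Y.filter fun y => a < y) (by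
      intro y hy
      rw [Finset.mem_filter] at hy
      exact (split_mem rfl hb (hY y hy.1)).2 hy.2)
    set kl := (K.filter fun y => y ∈ keys l).card
    set kr := (K.filter fun y => y ∈ keys r).card
    set e : ℕ := if a ∈ K then 1 else 0 with he
    have hcard : (K.filter fun y => y ∈ keys (node a l r)).card = kl + kr + e := by
      have : K.filter (fun y => y ∈ keys (node a l r)) =
          (K.filter fun y => y ∈ keys l) ∪ (K.filter fun y => y ∈ keys r) ∪
            (K.filter fun y => y = a) := by
        ext y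
        simp only [Finset.mem_filter, Finset.mem_union, keys, List.mem_append, List.mem_cons]
        tauto
      rw [this, Finset.card_union_of_disjoint, Finset.card_union_of_disjoint]
      · congr 1
        rw [he]
        split_ifs with h
        · rw [Finset.card_eq_one]
          refine ⟨a, ?_⟩
          ext y
          rw [Finset.mem_filter, Finset.mem_singleton]
          constructor
          · exact fun h => h.2
          · rintro rfl; exact ⟨h, rfl⟩
        · rw [Finset.card_eq_zero, Finset.eq_empty_iff_forall_notMem]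
          intro y hy
          rw [Finset.mem_filter] at hy
          exact h (hy.2 ▸ hy.1)
      · rw [Finset.disjoint_left]
        intro y h1 h2
        rw [Finset.mem_filter] at h1 h2
        have := g3 y h1.2
        have := g4 y h2.2
        omega
      · rw [Finset.disjoint_left]
        intro y h1 h2
        rw [Finset.mem_union, Finset.mem_filter, Finset.mem_filter] at h1
        rw [Finset.mem_filter] at h2
        rcases h1 with h1 | h1
        · have := g3 y h1.2; omega
        · have := g4 y h1.2; omega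
    rw [sum_split Y a, hcard]
    set f : ℝ := if a ∈ K then 1 else 1 / 4 with hf
    have hf0 : 0 ≤ f := by rw [hf]; split_ifs <;> norm_num
    have tL : ∑ y ∈ Y.filter (fun y => y < a), ((1 : ℝ) / 4) ^ (una K y (node a l r) + 1) ≤
        f * ((2 * (kl : ℝ) + 1) / 2) := by
      refine le_trans (le_of_eq ?_) (mul_le_mul_of_nonneg_left sL hf0)
      rw [Finset.mul_sum]
      refine Finset.sum_congr rfl fun y hy => ?_
      rw [Finset.mem_filter] at hy
      have h1 : ¬ y = a := by omega
      simp only [una, h1, hy.2, if_true, if_false, hf]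
      split_ifs
      · rw [zero_add, one_mul]
      · rw [add_comm 1, pow_succ, mul_comm]
    have tR : ∑ y ∈ Y.filter (fun y => a < y), ((1 : ℝ) / 4) ^ (una K y (node a l r) + 1) ≤
        f * ((2 * (kr : ℝ) + 1) / 2) := by
      refine le_trans (le_of_eq ?_) (mul_le_mul_of_nonneg_left sR hf0)
      rw [Finset.mul_sum]
      refine Finset.sum_congr rfl fun y hy => ?_
      rw [Finset.mem_filter] at hy
      have h1 : ¬ y = a := by omega
      have h2 : ¬ y < a := by omega
      simp only [una, h1, h2, if_false, hf]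
      split_ifs
      · rw [zero_add, one_mul]
      · rw [add_comm 1, pow_succ, mul_comm]
    have tM := sum_root_le (Y := Y) (ρ := a)
      (f := fun y => ((1 : ℝ) / 4) ^ (una K y (node a l r) + 1))
      (c := 1 / 4) (by norm_num) (by simp [una])
    have hkl : (0 : ℝ) ≤ kl := by positivity
    have hkr : (0 : ℝ) ≤ kr := by positivity
    have hef : (e : ℝ) = if a ∈ K then 1 else 0 := by rw [he]; split_ifs <;> simp
    push_cast
    rw [hef]
    by_cases h : a ∈ K
    · simp only [h, if_true] at hf ⊢
      rw [hf] at tL tR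
      linarith
    · simp only [h, if_false] at hf ⊢
      rw [hf] at tL tR
      linarith

end Pool.Agent.Helper59.SP
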