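import Pool.Agent.Helper59.SP.Wts

set_option autoImplicit false

/-! The price of a request, and the comparison of splaying with the sum of the prices. -/

namespace Pool.Agent.Helper59.SP

open Pool.Agent.H581R2.Splay Pool.Agent.TH49.Spl Tr Finset

/-- The price of a request: the least of three numbers. -/
noncomputable def price (a k d P n : ℕ) : ℝ :=
  min (2 * ((a : ℝ) + 1) + 2 * Real.logb 2 (1 + k))
    (min (((d : ℝ) + 1) * (3 + 2 * Real.logb 2 (1 + (P : ℝ) / (d + 1)))) (Real.logb 2 n))

theorem logb_nn {x : ℝ} (h : 1 ≤ x) : 0 ≤ Real.logb 2 x := Real.logb_nonneg (by norm_num) h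

theorem price_nonneg (a k d P : ℕ) {n : ℕ} (hn : 1 ≤ n) : 0 ≤ price a k d P n := by
  unfold price
  have h1 := logb_nn (x := 1 + (k : ℝ)) (by have : (0 : ℝ) ≤ k := by positivity
                                            linarith)
  have h2 := logb_nn (x := 1 + (P : ℝ) / (d + 1)) (by
    have : (0 : ℝ) ≤ (P : ℝ) / (d + 1) := by positivity
    linarith)
  have h4 := logb_nn (x := (n : ℝ)) (by exact_mod_cast hn)
  refine le_min ?_ (le_min ?_ h4)
  · positivity
  · positivity

theorem logb_quarter : Real.logb 2 (1 / 4) = -2 := by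
  rw [show (1 / 4 : ℝ) = 2 ^ (-2 : ℝ) by
    rw [Real.rpow_neg (by norm_num)]; norm_num]
  exact Real.logb_rpow (by norm_num) (by norm_num)

theorem logb_eighth : Real.logb 2 (1 / 8) = -3 := by
  rw [show (1 / 8 : ℝ) = 2 ^ (-3 : ℝ) by
    rw [Real.rpow_neg (by norm_num)]; norm_num]
  exact Real.logb_rpow (by norm_num) (by norm_num)

theorem logb_four : Real.logb 2 4 = 2 := by
  rw [show (4 : ℝ) = 2 ^ (2 : ℝ) by norm_num]
  exact Real.logb_rpow (by norm_num) (by norm_num)

theorem log_a (a k : ℕ) : -Real.logb 2 ((1 / 4) ^ (a + 1) * ((1 + (k : ℝ))⁻¹) ^ 2) =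
    2 * ((a : ℝ) + 1) + 2 * Real.logb 2 (1 + k) := by
  rw [Real.logb_mul (by positivity) (by positivity), Real.logb_pow, Real.logb_pow, Real.logb_inv,
    logb_quarter]
  push_cast
  ring

theorem log_v (D P : ℕ) :
    -Real.logb 2 (v D P) = ((D : ℝ) + 1) * (3 + 2 * Real.logb 2 (1 + (P : ℝ) / (D + 1))) := by
  unfold v
  rw [Real.logb_mul (by positivity) (by positivity), Real.logb_pow, Real.logb_pow, Real.logb_inv,
    logb_eighth]
  push_cast
  ring

theorem neg_log_le {a b : ℝ} (ha : 0 < a) (h : a ≤ b) : -Real.logb 2 b ≤ -Real.logb 2 a := by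
  have := logb_mono ha h
  linarith

section
variable {t : ℕ → Tr} {q : ℕ → Option ℕ} {P : ℕ → Finset ℕ} {S : ℕ → List ℕ} {n M : ℕ}

theorem W_first {i x : ℕ} (hn : 1 ≤ n) : -Real.logb 2 (W t q P S n M i x) ≤ Real.logb 2 n := by
  have h3 : (0 : ℝ) < 1 / n := by
    have : (0 : ℝ) < n := by exact_mod_cast hn
    positivity
  have h4 := neg_log_le h3 (W_ge (t := t) (q := q) (P := P) (S := S) (M := M) i x)
  rw [one_div, Real.logb_inv, neg_neg] at h4
  exact h4

theorem W_price {i x ℓ : ℕ} (hn : 1 ≤ n) (hℓ : lr q x i = some ℓ) :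
    -Real.logb 2 (W t q P S n M i x) ≤ price (una (moved q P M ℓ) x (t ℓ)) (moved q P M ℓ).card
      (dep x (t ℓ)) (touched q S M ℓ x) n := by
  have pv := v_pos (dep x (t ℓ)) (touched q S M ℓ x)
  have pa : (0 : ℝ) < (1 / 4) ^ (una (moved q P M ℓ) x (t ℓ) + 1) *
    ((1 + ((moved q P M ℓ).card : ℝ))⁻¹) ^ 2 := by positivity
  have pn : (0 : ℝ) ≤ 1 / n := by positivity
  have hW : W t q P S n M i x = (1 / 4) ^ (una (moved q P M ℓ) x (t ℓ) + 1) *
    ((1 + ((moved q P M ℓ).card : ℝ))⁻¹) ^ 2 + v (dep x (t ℓ)) (touched q S M ℓ x) + 1 / n := by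
    unfold W A
    rw [hℓ, Option.elim_some]
  unfold price
  refine le_min ?_ (le_min ?_ (W_first hn))
  · rw [← log_a]
    refine neg_log_le pa ?_
    rw [hW]
    linarith
  · rw [← log_v]
    refine neg_log_le pv ?_
    rw [hW]
    linarith

/-- the time of the previous request of the key requested at the time `i` -/
def pv (q : ℕ → Option ℕ) (i : ℕ) : Option ℕ := (q i).bind fun x => lr q x i

theorem pv_spec {i ℓ : ℕ} (h : pv q i = some ℓ) :
    ℓ < i ∧ q ℓ = q i ∧ q i ≠ none ∧ ∀ j, ℓ < j → j < i → q j ≠ q i := by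
  unfold pv at h
  cases hq : q i with
  | none => rw [hq] at h; simp at h
  | some x =>
    rw [hq] at h
    simp only [Option.bind_some] at h
    obtain ⟨h1, h2, h3⟩ := lr_some h
    exact ⟨h1, h2, by simp, h3⟩

theorem sum_prev_le {f : ℕ → ℝ} (hf : ∀ i < M, 0 ≤ f i) :
    ∑ i ∈ (range M).filter (fun i => pv q i ≠ none), f ((pv q i).getD 0) ≤
      ∑ i ∈ range M, f i := by
  have hsome : ∀ i ∈ (range M).filter (fun i => pv q i ≠ none),
      i < M ∧ pv q i = some ((pv q i).getD 0) := by
    intro i hi
    rw [Finset.mem_filter, Finset.mem_range] at hi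
    obtain ⟨ℓ, hℓ⟩ := Option.ne_none_iff_exists'.1 hi.2
    exact ⟨hi.1, by rw [hℓ]; rfl⟩
  have hinj : Set.InjOn (fun i => (pv q i).getD 0)
      ((range M).filter (fun i => pv q i ≠ none) : Finset ℕ) := by
    intro i hi j hj hij
    have h1 := pv_spec (hsome i (Finset.mem_coe.1 hi)).2
    have h2 := pv_spec (hsome j (Finset.mem_coe.1 hj)).2
    simp only at hij
    rw [hij] at h1
    obtain ⟨a1, a2, a3, a4⟩ := h1
    obtain ⟨b1, b2, b3, b4⟩ := h2
    have hqq : q i = q j := by rw [← a2, b2]
    rcases lt_trichotomy i j with h | h | h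
    · exact absurd hqq (b4 i a1 h)
    · exact h
    · exact absurd hqq.symm (a4 j b1 h)
  rw [← Finset.sum_image (f := f) hinj]
  refine Finset.sum_le_sum_of_subset_of_nonneg ?_ ?_
  · intro ℓ hℓ
    rw [Finset.mem_image] at hℓ
    obtain ⟨i, hi, rfl⟩ := hℓ
    have h1 := hsome i hi
    have h2 := pv_spec h1.2
    rw [Finset.mem_range]
    omega
  · intro i hi _
    exact hf i (Finset.mem_range.1 hi)

theorem card_first (hq : ∀ i < M, ∀ x, q i = some x → x ∈ keys (t 0)) :
    ((range M).filter (fun i => q i ≠ none ∧ pv q i = none)).card ≤ (keys (t 0)).length := by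
  refine le_trans ?_ (List.toFinset_card_le (keys (t 0)))
  refine Finset.card_le_card_of_injOn (fun i => (q i).getD 0) ?_ ?_
  · intro i hi
    rw [Finset.mem_coe, Finset.mem_filter, Finset.mem_range] at hi
    obtain ⟨x, hx⟩ := Option.ne_none_iff_exists'.1 hi.2.1
    simp only [hx, Option.getD_some, Finset.mem_coe, List.mem_toFinset]
    exact hq i hi.1 x hx
  · intro i hi j hj hij
    rw [Finset.mem_coe, Finset.mem_filter, Finset.mem_range] at hi hj
    obtain ⟨x, hx⟩ := Option.ne_none_iff_exists'.1 hi.2.1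
    obtain ⟨y, hy⟩ := Option.ne_none_iff_exists'.1 hj.2.1
    simp only [hx, hy, Option.getD_some] at hij
    subst hij
    have hi2 := hi.2.2
    have hj2 := hj.2.2
    unfold pv at hi2 hj2
    rw [hx] at hi2
    rw [hy] at hj2
    simp only [Option.bind_some] at hi2 hj2
    rcases lt_trichotomy i j with h | h | h
    · exact absurd hx (lr_none hj2 i h)
    · exact h
    · exact absurd hy (lr_none hi2 j h)

theorem req_mem (hE : ∀ i < M, Ev (t i) (t (i + 1)) (q i) (P i) (S i)) :
    ∀ i < M, ∀ x, q i = some x → x ∈ keys (t 0) := by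
  intro i hi x hx
  have := hE i hi
  rw [hx] at this
  have h2 := this.mem.1
  rw [keys_const hE (by omega)] at h2
  exact h2

theorem no_req (hE : ∀ i < M, Ev (t i) (t (i + 1)) (q i) (P i) (S i))
    (h0 : (keys (t 0)).length = 0) : ∀ i < M, q i = none := by
  intro i hi
  cases h : q i with
  | none => rfl
  | some x =>
    have := req_mem hE i hi x h
    rw [List.length_eq_zero_iff.1 h0] at this
    simp at this

/-- splaying costs at most the sum of the prices -/
theorem main (hb : IsBST (t 0)) (hE : ∀ i < M, Ev (t i) (t (i + 1)) (q i) (P i) (S i))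
    (hn : (keys (t 0)).length = n) {T : Tr} (hT : keys T = keys (t 0)) :
    (costSplay T ((List.range M).filterMap q) : ℝ) ≤
      ∑ i ∈ range M, (q i).elim 0 (fun x => 8 + 3 * price (una (moved q P M i) x (t i))
        (moved q P M i).card (dep x (t i)) (touched q S M i x) n) +
        4 * n * Real.logb 2 n := by
  have hq := req_mem hE
  have hbT : IsBST T := by unfold IsBST; rw [hT]; exact hb
  -- the case of the empty tree
  rcases Nat.eq_zero_or_pos n with hn0 | hn1
  · have hq0 := no_req hE (hn.trans hn0)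
    have h1 : (List.range M).filterMap q = [] := by
      rw [List.filterMap_eq_nil_iff]
      intro i hi
      exact hq0 i (List.mem_range.1 hi)
    rw [h1, hn0]
    simp only [costSplay]
    have h2 : ∑ i ∈ range M, (q i).elim 0 (fun x => 8 + 3 * price (una (moved q P M i) x (t i))
        (moved q P M i).card (dep x (t i)) (touched q S M i x) 0) = 0 := by
      refine Finset.sum_eq_zero fun i hi => ?_
      rw [hq0 i (Finset.mem_range.1 hi)]
      rfl
    rw [h2]
    simp
  have hnR : (0 : ℝ) < n := by exact_mod_cast hn1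
  have hL0 : 0 ≤ Real.logb 2 n := logb_nn (by exact_mod_cast hn1)
  have g := run_pot_gen (T := T) (q := q) (M := M) hbT (by rw [hT]; exact hq)
    (w := fun i y => W t q P S n M i y) (fun i a => W_pos hn1 i a) (B := 4)
    (fun i hi => by rw [hT]; exact W_sum hn1 hb hn hE hi) (fun i _ y hy => W_mono hy)
  -- the initial and the final potential
  have g0 : pot (W t q P S n M 0) T ≤ 0 := by
    have := pot_upper (W_pos (t := t) (q := q) (P := P) (S := S) (M := M) hn1 0) T (B := 1) (by
      rw [wt_eq, hT]; exact W_zero_sum hn1 hb hn)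
    rw [Real.logb_one, mul_zero] at this
    exact this
  have gM : -(n * Real.logb 2 n) ≤ pot (W t q P S n M M) (st T q M) := by
    have hk := st_keys hbT (by rw [hT]; exact hq) M le_rfl
    have := pot_lower (W_pos (t := t) (q := q) (P := P) (S := S) (M := M) hn1 M) (st T q M)
      (c := 1 / n) (by positivity) (fun y _ => W_ge M y)
    rw [hk, hT, hn, one_div, Real.logb_inv] at this
    linarith
  -- the prices
  set pr : ℕ → ℕ → ℝ := fun i x => price (una (moved q P M i) x (t i))
        (moved q P M i).card (dep x (t i)) (touched q S M i x) n with hpr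
  set f : ℕ → ℝ := fun i => (q i).elim 0 (fun x => pr i x) with hf
  have hf0 : ∀ i, 0 ≤ f i := fun i => elim_nonneg (fun x => price_nonneg _ _ _ _ hn1)
  have e1 : ∑ i ∈ range M, (q i).elim 0 (fun x => 2 + 3 * Real.logb 2 4 -
      3 * Real.logb 2 (W t q P S n M i x)) ≤
      ∑ i ∈ range M, ((q i).elim 0 (fun _ => 8) + 3 * ((if q i ≠ none ∧ pv q i = none then
        Real.logb 2 n else 0) + (if pv q i ≠ none then f ((pv q i).getD 0) else 0))) := by
    refine Finset.sum_le_sum fun i hi => ?_
    rw [Finset.mem_range] at hi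
    rw [logb_four]
    cases h : q i with
    | none =>
      have : pv q i = none := by unfold pv; rw [h]; rfl
      simp [this]
    | some x =>
      simp only [Option.elim_some]
      cases hl : lr q x i with
      | none =>
        have h4 : pv q i = none := by unfold pv; rw [h]; exact hl
        have h5 := W_first (t := t) (q := q) (P := P) (S := S) (M := M) (i := i) (x := x) hn1
        simp only [h4, ne_eq, reduceCtorEq, not_false_eq_true, and_self, if_true, not_true,
          if_false]
        linarith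
      | some ℓ =>
        have h4 : pv q i = some ℓ := by unfold pv; rw [h]; exact hl
        have h5 := W_price (t := t) (q := q) (P := P) (S := S) (M := M) hn1 hl
        have h6 : f ℓ = pr ℓ x := by
          rw [hf]
          simp only [(lr_some hl).2.1, Option.elim_some]
        simp only [h4, ne_eq, reduceCtorEq, not_false_eq_true, and_false, if_true, if_false,
          Option.getD_some]
        rw [h6]
        simp only [hpr]
        linarith
  have e2 : ∑ i ∈ range M, (if q i ≠ none ∧ pv q i = none then Real.logb 2 n else 0) ≤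
      n * Real.logb 2 n := by
    rw [← Finset.sum_filter, Finset.sum_const, nsmul_eq_mul]
    refine mul_le_mul_of_nonneg_right ?_ hL0
    rw [← hn]
    exact_mod_cast card_first (t := t) hq
  have e3 : ∑ i ∈ range M, (if pv q i ≠ none then f ((pv q i).getD 0) else 0) ≤
      ∑ i ∈ range M, f i := by
    rw [← Finset.sum_filter]
    exact sum_prev_le (fun i _ => hf0 i)
  have e4 : ∑ i ∈ range M, (q i).elim 0 (fun x => 8 + 3 * pr i x) =
      ∑ i ∈ range M, (q i).elim 0 (fun _ => (8 : ℝ)) + 3 * ∑ i ∈ range M, f i := by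
    rw [Finset.mul_sum, ← Finset.sum_add_distrib]
    refine Finset.sum_congr rfl fun i _ => ?_
    rw [hf]
    simp only
    cases h : q i with
    | none => simp
    | some x => simp
  rw [Finset.sum_add_distrib, ← Finset.mul_sum, Finset.sum_add_distrib] at e1
  rw [e4]
  linarith

end

end Pool.Agent.Helper59.SP
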