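import Pool.Agent.Helper59.SP.KraftU

set_option autoImplicit false

/-! The potential argument with time dependent weights. -/

namespace Pool.Agent.Helper59.SP

open Pool.Agent.H581R2.Splay Pool.Agent.TH49.Spl Tr Finset

theorem wt_mono {w w' : ℕ → ℝ} (t : Tr) (h : ∀ y ∈ keys t, w' y ≤ w y) : wt w' t ≤ wt w t := by
  induction t with
  | nil => simp [wt]
  | node a l r ihl ihr =>
    simp only [wt]
    have h1 := h a (by simp [keys])
    have h2 := ihl (fun y hy => h y (by simp [keys, hy]))
    have h3 := ihr (fun y hy => h y (by simp [keys, hy]))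
    linarith

theorem pot_mono {w w' : ℕ → ℝ} (hw' : ∀ a, 0 < w' a) (t : Tr) (h : ∀ y ∈ keys t, w' y ≤ w y) :
    pot w' t ≤ pot w t := by
  induction t with
  | nil => simp [pot]
  | node a l r ihl ihr =>
    have h1 := logb_mono (wt_pos hw' a l r) (wt_mono (node a l r) h)
    have h2 := ihl (fun y hy => h y (by simp [keys, hy]))
    have h3 := ihr (fun y hy => h y (by simp [keys, hy]))
    simp only [pot]
    linarith

theorem wt_eq (w : ℕ → ℝ) (t : Tr) : wt w t = ((keys t).map w).sum := by
  induction t with
  | nil => simp [wt, keys]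
  | node a l r ihl ihr =>
    simp only [wt, keys, List.map_append, List.map_cons, List.sum_append, List.sum_cons, ihl, ihr]
    ring

theorem pot_upper {w : ℕ → ℝ} (hw : ∀ a, 0 < w a) (t : Tr) {B : ℝ} (hB : wt w t ≤ B) :
    pot w t ≤ (keys t).length * Real.logb 2 B := by
  induction t with
  | nil => simp [pot, keys]
  | node a l r ihl ihr =>
    have h0 := wt_pos hw a l r
    have h1 := logb_mono h0 hB
    have hl := wt_nonneg hw l
    have hr := wt_nonneg hw r
    have ha := hw a
    simp only [wt] at hB
    have h2 := ihl (by linarith)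
    have h3 := ihr (by linarith)
    simp only [pot, keys, List.length_append, List.length_cons]
    push_cast
    linarith

theorem pot_lower {w : ℕ → ℝ} (hw : ∀ a, 0 < w a) (t : Tr) {c : ℝ} (hc : 0 < c)
    (h : ∀ y ∈ keys t, c ≤ w y) : (keys t).length * Real.logb 2 c ≤ pot w t := by
  induction t with
  | nil => simp [pot, keys]
  | node a l r ihl ihr =>
    have hl := wt_nonneg hw l
    have hr := wt_nonneg hw r
    have ha := h a (by simp [keys])
    have h1 := logb_mono hc (show c ≤ wt w (node a l r) by simp only [wt]; linarith)
    have h2 := ihl (fun y hy => h y (by simp [keys, hy]))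
    have h3 := ihr (fun y hy => h y (by simp [keys, hy]))
    simp only [pot, keys, List.length_append, List.length_cons]
    push_cast
    linarith

/-- one request, followed by a change of the weights at which only the weight of the requested
key may increase -/
theorem step_req {w w' : ℕ → ℝ} (hw : ∀ a, 0 < w a) (hw' : ∀ a, 0 < w' a) {x : ℕ} {s : Tr}
    (hb : IsBST s) (hx : x ∈ keys s) {B : ℝ} (hB : wt w s ≤ B) (hB' : wt w' (splay x s) ≤ B)
    (hne : ∀ y, y ≠ x → w' y ≤ w y) :
    (1 : ℝ) + dep x s + pot w' (splay x s) ≤
      pot w s + (2 + 3 * Real.logb 2 B - 3 * Real.logb 2 (w x)) := by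
  obtain ⟨h1, h2, h3⟩ := waccess hw hb hx
  obtain ⟨l, r, hlr⟩ := splay_root x s
  have hb' : IsBST (splay x s) := by unfold IsBST; rw [h1]; exact hb
  have hS : 0 < wt w s := by rw [← h2, hlr]; exact wt_pos hw x l r
  have e1 : pot w (splay x s) = Real.logb 2 (wt w s) + pot w l + pot w r := by
    rw [← h2, hlr]; simp only [pot]
  have e2 : pot w' (splay x s) = Real.logb 2 (wt w' (splay x s)) + pot w' l + pot w' r := by
    rw [hlr]; simp only [pot]
  rw [hlr] at hb'
  obtain ⟨_, _, g3, g4⟩ := bst_node hb'
  have m1 := pot_mono hw' l (fun y hy => hne y (by have := g3 y hy; omega))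
  have m2 := pot_mono hw' r (fun y hy => hne y (by have := g4 y hy; omega))
  have m3 : Real.logb 2 (wt w' (splay x s)) ≤ Real.logb 2 B := by
    refine logb_mono ?_ hB'
    rw [hlr]; exact wt_pos hw' x l r
  have m4 : Real.logb 2 (wt w s) ≤ Real.logb 2 B := logb_mono hS hB
  rw [e2]
  rw [e1] at h3
  linarith

/-- the splay tree after the requests before the time `i` -/
def st (T : Tr) (q : ℕ → Option ℕ) : ℕ → Tr
  | 0 => T
  | i + 1 => (q i).elim (st T q i) (fun x => splay x (st T q i))

theorem costSplay_append (X Y : List ℕ) : ∀ T : Tr,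
    costSplay T (X ++ Y) = costSplay T X + costSplay (X.foldl (fun s x => splay x s) T) Y := by
  induction X with
  | nil => intro T; simp [costSplay]
  | cons x X ih =>
    intro T
    simp only [List.cons_append, costSplay, List.foldl_cons]
    rw [ih]
    ring

theorem st_eq (T : Tr) (q : ℕ → Option ℕ) (i : ℕ) :
    st T q i = ((List.range i).filterMap q).foldl (fun s x => splay x s) T := by
  induction i with
  | zero => simp [st]
  | succ i ih =>
    rw [List.range_succ, List.filterMap_append, List.foldl_append, ← ih]
    simp only [st]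
    cases h : q i with
    | none => simp [h]
    | some x => simp [h]

theorem cost_eq (T : Tr) (q : ℕ → Option ℕ) (M : ℕ) :
    costSplay T ((List.range M).filterMap q) =
      ∑ i ∈ range M, (q i).elim 0 (fun x => 1 + dep x (st T q i)) := by
  induction M with
  | zero => simp [costSplay]
  | succ M ih =>
    rw [List.range_succ, List.filterMap_append, costSplay_append, Finset.sum_range_succ, ← ih,
      ← st_eq]
    cases h : q M with
    | none => simp [h, costSplay]
    | some x => simp [h, costSplay]

theorem st_keys {T : Tr} {q : ℕ → Option ℕ} {M : ℕ} (hb : IsBST T)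
    (hq : ∀ i < M, ∀ x, q i = some x → x ∈ keys T) : ∀ i ≤ M, keys (st T q i) = keys T := by
  intro i
  induction i with
  | zero => intro _; rfl
  | succ i ih =>
    intro hi
    have h1 := ih (by omega)
    simp only [st]
    cases h : q i with
    | none => exact h1
    | some x =>
      simp only [Option.elim]
      rw [splay_keys, h1]
      · unfold IsBST; rw [h1]; exact hb
      · rw [h1]; exact hq i (by omega) x h

/-- the cost of splaying, for weights which may only decrease except at requests -/
theorem run_pot_gen {T : Tr} {q : ℕ → Option ℕ} {M : ℕ} (hb : IsBST T)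
    (hq : ∀ i < M, ∀ x, q i = some x → x ∈ keys T) {w : ℕ → ℕ → ℝ} (hw : ∀ i a, 0 < w i a)
    {B : ℝ} (hB : ∀ i ≤ M, ((keys T).map (w i)).sum ≤ B)
    (hmono : ∀ i < M, ∀ y, q i ≠ some y → w (i + 1) y ≤ w i y) :
    (costSplay T ((List.range M).filterMap q) : ℝ) + pot (w M) (st T q M) ≤
      pot (w 0) T + ∑ i ∈ range M,
        (q i).elim 0 (fun x => 2 + 3 * Real.logb 2 B - 3 * Real.logb 2 (w i x)) := by
  rw [cost_eq]
  have main : ∀ k ≤ M, ((∑ i ∈ range k, (q i).elim 0 (fun x => 1 + dep x (st T q i)) : ℕ) : ℝ) +
      pot (w k) (st T q k) ≤ pot (w 0) T + ∑ i ∈ range k,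
        (q i).elim 0 (fun x => 2 + 3 * Real.logb 2 B - 3 * Real.logb 2 (w i x)) := by
    intro k
    induction k with
    | zero => intro _; simp [st]
    | succ k ih =>
      intro hk
      have h1 := ih (by omega)
      have hkeys := st_keys hb hq k (by omega)
      rw [Finset.sum_range_succ, Finset.sum_range_succ]
      simp only [st]
      cases h : q k with
      | none =>
        simp only [Option.elim_none]
        have := pot_mono (hw (k + 1)) (st T q k) (fun y _ => hmono k (by omega) y (by rw [h]; simp))
        rw [add_zero, add_zero]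
        linarith
      | some x =>
        simp only [Option.elim_some]
        have hx := hq k (by omega) x h
        have hb' : IsBST (st T q k) := by unfold IsBST; rw [hkeys]; exact hb
        have h2 := step_req (hw k) (hw (k + 1)) hb' (by rw [hkeys]; exact hx)
          (B := B) (by rw [wt_eq, hkeys]; exact hB k (by omega))
          (by
            rw [wt_eq, splay_keys hb' (by rw [hkeys]; exact hx), hkeys]
            exact hB (k + 1) hk)
          (fun y hy => hmono k (by omega) y (by rw [h]; simpa using Ne.symm hy))
        rw [Nat.cast_add]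
        push_cast at h2 ⊢
        push_cast at h1
        linarith
  exact main M le_rfl

end Pool.Agent.Helper59.SP
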