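import Pool.Agent.Helper59.SP.Run

set_option autoImplicit false

/-! The weights of the potential argument, and their total. -/

namespace Pool.Agent.Helper59.SP

open Pool.Agent.H581R2.Splay Pool.Agent.TH49.Spl Tr Finset

/-- One event of an execution. Either a request of a key `x` (the tree does not change, no key is
rotated), or a rotation at the edge between a node `p` and its child `c`; in the latter case the
finite set is `{p, c}` and the list consists of the keys of the rotated subtree. -/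
inductive Ev : Tr → Tr → Option ℕ → Finset ℕ → List ℕ → Prop
  | req (T : Tr) (x : ℕ) : x ∈ keys T → Ev T T (some x) ∅ []
  | rot (T T' : Tr) (p c : ℕ) (S : List ℕ) : RotAt T T' p c S → Ev T T' none {p, c} S

theorem Ev.stp {T T' : Tr} {o : Option ℕ} {P : Finset ℕ} {S : List ℕ} (h : Ev T T' o P S)
    {K : Finset ℕ} (hK : P ⊆ K) : Stp K T T' S := by
  cases h with
  | req => exact Stp.same _
  | rot =>
    rename_i p c h
    exact Stp.rot _ _ p c _ h (hK (by simp)) (hK (by simp))

theorem Ev.mem {T T' : Tr} {x : ℕ} {P : Finset ℕ} {S : List ℕ} (h : Ev T T' (some x) P S) :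
    x ∈ keys T ∧ P = ∅ ∧ S = [] := by
  cases h with
  | req => rename_i h; exact ⟨h, rfl, rfl⟩

/-- the last request of `y` before the time `i` -/
def lr (q : ℕ → Option ℕ) (y : ℕ) : ℕ → Option ℕ
  | 0 => none
  | i + 1 => if q i = some y then some i else lr q y i

theorem lr_some {q : ℕ → Option ℕ} {y i ℓ : ℕ} (h : lr q y i = some ℓ) :
    ℓ < i ∧ q ℓ = some y ∧ ∀ j, ℓ < j → j < i → q j ≠ some y := by
  induction i with
  | zero => simp [lr] at h
  | succ i ih =>
    simp only [lr] at h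
    split_ifs at h with h1
    · rw [Option.some.injEq] at h
      subst h
      exact ⟨by omega, h1, fun j h2 h3 => by omega⟩
    · obtain ⟨h2, h3, h4⟩ := ih h
      refine ⟨by omega, h3, fun j h5 h6 => ?_⟩
      by_cases hj : j = i
      · rw [hj]; exact h1
      · exact h4 j h5 (by omega)

theorem lr_none {q : ℕ → Option ℕ} {y i : ℕ} (h : lr q y i = none) :
    ∀ j < i, q j ≠ some y := by
  induction i with
  | zero => intro j hj; omega
  | succ i ih =>
    simp only [lr] at h
    split_ifs at h with h1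
    intro j hj
    by_cases hj' : j = i
    · rw [hj']; exact h1
    · exact ih h j (by omega)

/-- The times after the time `i`, before the time `M` and before (or at) the next request of the
key requested at the time `i`. -/
def until' (q : ℕ → Option ℕ) (M i : ℕ) : Finset ℕ :=
  (Ioo i M).filter fun j => ∀ k ∈ Ioo i j, q k ≠ q i

/-- The keys which take part in rotations after the request at the time `i` and before the next
request of the same key (or before the time `M`). -/
def moved (q : ℕ → Option ℕ) (P : ℕ → Finset ℕ) (M i : ℕ) : Finset ℕ := (until' q M i).biUnion P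

/-- The number of the rotations after the request at the time `i` and before the next request of
the same key (or before the time `M`) whose rotated subtree contains the key `x`. -/
def touched (q : ℕ → Option ℕ) (S : ℕ → List ℕ) (M i x : ℕ) : ℕ :=
  ((until' q M i).filter fun j => x ∈ S j).card

theorem una_anti {K K' : Finset ℕ} (h : K ⊆ K') (y : ℕ) (t : Tr) : una K' y t ≤ una K y t := by
  induction t with
  | nil => simp [una]
  | node a l r ihl ihr =>
    simp only [una]
    by_cases h1 : a ∈ K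
    · have h2 := h h1
      simp only [h1, h2, if_true]
      split_ifs <;> omega
    · simp only [h1, if_false]
      split_ifs <;> omega

/-- summation by parts -/
theorem abel (Y : Finset ℕ) (e : ℕ → ℝ) (κ : ℕ → ℕ)
    (hN : ∀ k : ℕ, ∑ y ∈ Y.filter (fun y => κ y ≤ k), e y ≤ (4 * (k : ℝ) + 1) / 2) :
    ∑ y ∈ Y, e y * ((1 + (κ y : ℝ))⁻¹) ^ 2 ≤ 11 / 6 := by
  set N : ℕ → ℝ := fun k => ∑ y ∈ Y.filter (fun y => κ y ≤ k), e y with hNd
  have claim : ∀ k : ℕ, ∑ y ∈ Y.filter (fun y => κ y ≤ k), e y * ((1 + (κ y : ℝ))⁻¹) ^ 2 ≤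
      N k * ((1 + (k : ℝ))⁻¹) ^ 2 + (11 / 6 - 2 / ((k : ℝ) + 3 / 2)) -
        (4 * (k : ℝ) + 1) / 2 * ((1 + (k : ℝ))⁻¹) ^ 2 := by
    intro k
    induction k with
    | zero =>
      have : ∑ y ∈ Y.filter (fun y => κ y ≤ 0), e y * ((1 + (κ y : ℝ))⁻¹) ^ 2 = N 0 := by
        rw [hNd]
        refine Finset.sum_congr rfl fun y hy => ?_
        rw [Finset.mem_filter] at hy
        have : κ y = 0 := by omega
        rw [this]
        simp
      rw [this]
      norm_num
    | succ k ih =>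
      have hsplit : Y.filter (fun y => κ y ≤ k + 1) = Y.filter (fun y => κ y ≤ k) ∪
          Y.filter (fun y => κ y = k + 1) := by
        ext y
        simp only [Finset.mem_filter, Finset.mem_union]
        constructor
        · rintro ⟨h1, h2⟩
          by_cases h3 : κ y = k + 1
          · exact Or.inr ⟨h1, h3⟩
          · exact Or.inl ⟨h1, by omega⟩
        · rintro (⟨h1, h2⟩ | ⟨h1, h2⟩)
          · exact ⟨h1, by omega⟩
          · exact ⟨h1, by omega⟩
      have hdisj : Disjoint (Y.filter (fun y => κ y ≤ k)) (Y.filter (fun y => κ y = k + 1)) := by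
        rw [Finset.disjoint_left]
        intro y h1 h2
        rw [Finset.mem_filter] at h1 h2
        omega
      have hN1 : N (k + 1) = N k + ∑ y ∈ Y.filter (fun y => κ y = k + 1), e y := by
        rw [hNd]
        simp only
        rw [hsplit, Finset.sum_union hdisj]
      have hS1 : ∑ y ∈ Y.filter (fun y => κ y ≤ k + 1), e y * ((1 + (κ y : ℝ))⁻¹) ^ 2 =
          ∑ y ∈ Y.filter (fun y => κ y ≤ k), e y * ((1 + (κ y : ℝ))⁻¹) ^ 2 +
          (∑ y ∈ Y.filter (fun y => κ y = k + 1), e y) * ((1 + ((k + 1 : ℕ) : ℝ))⁻¹) ^ 2 := by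
        rw [hsplit, Finset.sum_union hdisj, Finset.sum_mul]
        congr 1
        refine Finset.sum_congr rfl fun y hy => ?_
        rw [Finset.mem_filter] at hy
        rw [hy.2]
      set G := ∑ y ∈ Y.filter (fun y => κ y = k + 1), e y with hG
      set g : ℝ := ((1 + (k : ℝ))⁻¹) ^ 2 with hg
      set g' : ℝ := ((1 + ((k + 1 : ℕ) : ℝ))⁻¹) ^ 2 with hg'
      have hk : (0 : ℝ) ≤ k := by positivity
      have hgg : g' ≤ g := by
        rw [hg, hg']
        push_cast
        gcongr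
        linarith
      have hNk : N k ≤ (4 * (k : ℝ) + 1) / 2 := hN k
      have hV : 2 * g' ≤ 2 / ((k : ℝ) + 3 / 2) - 2 / (((k + 1 : ℕ) : ℝ) + 3 / 2) := by
        rw [hg']
        push_cast
        rw [inv_pow, ← one_div, div_sub_div _ _ (by positivity) (by positivity), ← mul_div_assoc,
          div_le_div_iff₀ (by positivity) (by positivity)]
        nlinarith [sq_nonneg (k : ℝ)]
      rw [hS1, hN1]
      have hprod : (N k - (4 * (k : ℝ) + 1) / 2) * (g - g') ≤ 0 :=
        mul_nonpos_of_nonpos_of_nonneg (by linarith) (by linarith)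
      push_cast at hV ⊢
      nlinarith
  -- choose k large
  set k := Y.sup κ with hk
  have hall : Y.filter (fun y => κ y ≤ k) = Y := by
    rw [Finset.filter_eq_self]
    intro y hy
    exact Finset.le_sup (f := κ) hy
  have h1 := claim k
  rw [hall] at h1
  have h2 : N k ≤ (4 * (k : ℝ) + 1) / 2 := hN k
  have h3 : (0 : ℝ) ≤ ((1 + (k : ℝ))⁻¹) ^ 2 := by positivity
  have h4 : (0 : ℝ) ≤ 2 / ((k : ℝ) + 3 / 2) := by positivity
  nlinarith [mul_le_mul_of_nonneg_right h2 h3]

section
variable {t : ℕ → Tr} {q : ℕ → Option ℕ} {P : ℕ → Finset ℕ} {S : ℕ → List ℕ} {n M : ℕ}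

theorem stp_of (hE : ∀ i < M, Ev (t i) (t (i + 1)) (q i) (P i) (S i)) {K : Finset ℕ} {a b : ℕ}
    (hb : b ≤ M) (hK : ∀ i, a ≤ i → i < b → P i ⊆ K) : TL K t S a b :=
  fun i h1 h2 => (hE i (by omega)).stp (hK i h1 h2)

theorem keys_const (hE : ∀ i < M, Ev (t i) (t (i + 1)) (q i) (P i) (S i)) {i : ℕ} (hi : i ≤ M) :
    keys (t i) = keys (t 0) :=
  (stp_of hE (K := (range M).biUnion P) le_rfl (fun j _ h2 => by
    refine Finset.subset_biUnion_of_mem P ?_
    rw [Finset.mem_range]; exact h2)).keys_eq i (Nat.zero_le _) hi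

theorem una_const {K : Finset ℕ} (hb : IsBST (t 0))
    (hE : ∀ i < M, Ev (t i) (t (i + 1)) (q i) (P i) (S i)) {a b : ℕ} (hbM : b ≤ M)
    (hK : ∀ i, a ≤ i → i < b → P i ⊆ K) (y : ℕ) :
    ∀ i, a ≤ i → i ≤ b → una K y (t i) = una K y (t a) := by
  intro i hai
  induction i, hai using Nat.le_induction with
  | base => intro _; rfl
  | succ i hai ih =>
    intro hib
    have hbi : IsBST (t i) := by unfold IsBST; rw [keys_const hE (by omega)]; exact hb
    rw [una_stp ((hE i (by omega)).stp (hK i hai (by omega))) y hbi]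
    exact ih (by omega)

/-- the end of the period -/
theorem end_exists (q : ℕ → Option ℕ) (M i y : ℕ) :
    ∃ e, ∀ j, i ≤ j → j < M → ((∀ k, i ≤ k → k < j → q k ≠ some y) ↔ j ≤ e) := by
  classical
  by_cases h : ∃ k, i ≤ k ∧ q k = some y
  · refine ⟨Nat.find h, fun j h1 h2 => ⟨fun h3 => ?_, fun h3 k h4 h5 h6 => ?_⟩⟩
    · by_contra hlt
      obtain ⟨h5, h6⟩ := Nat.find_spec h
      exact h3 _ h5 (by omega) h6
    · exact Nat.find_min h (m := k) (by omega) ⟨h4, h6⟩
  · refine ⟨M, fun j h1 h2 => ⟨fun _ => h2.le, fun _ k h4 _ h6 => h ⟨k, h4, h6⟩⟩⟩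

/-- few keys with few moved keys and few unmoved ancestors -/
theorem nest (hb : IsBST (t 0)) (hE : ∀ i < M, Ev (t i) (t (i + 1)) (q i) (P i) (S i))
    {i : ℕ} (hi : i ≤ M) (Y : Finset ℕ) (ℓ : ℕ → ℕ) (hY : ∀ y ∈ Y, lr q y i = some (ℓ y)) (k : ℕ)
    (hk : ∀ y ∈ Y, (moved q P M (ℓ y)).card ≤ k) :
    ∑ y ∈ Y, ((1 : ℝ) / 4) ^ (una (moved q P M (ℓ y)) y (t (ℓ y)) + 1) ≤
      (4 * (k : ℝ) + 1) / 2 := by
  rcases Y.eq_empty_or_nonempty with rfl | hne
  · rw [Finset.sum_empty]; positivity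
  choose e he using end_exists q M i
  obtain ⟨y1, hy1, hmin⟩ := Finset.exists_min_image Y ℓ hne
  obtain ⟨y2, hy2, hmax⟩ := Finset.exists_max_image Y e hne
  set K1 := (Ico (ℓ y1) i).biUnion P with hK1
  set K2 := ((Ico i M).filter fun j => j ≤ e y2).biUnion P with hK2
  have hmem : ∀ y ∈ Y, ∀ j, ℓ y < j → j < M → (j < i ∨ j ≤ e y) → j ∈ until' q M (ℓ y) := by
    intro y hy j h1 h2 h3
    obtain ⟨l1, l2, l3⟩ := lr_some (hY y hy)
    unfold until'
    rw [Finset.mem_filter, Finset.mem_Ioo]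
    refine ⟨⟨h1, h2⟩, fun k hk => ?_⟩
    rw [Finset.mem_Ioo] at hk
    rw [l2]
    by_cases hki : k < i
    · exact l3 k hk.1 hki
    · have hij : i ≤ j := by omega
      have h4 : j ≤ e y := by omega
      exact (he y j hij h2).2 h4 k (by omega) hk.2
  have hPℓ : ∀ y ∈ Y, P (ℓ y) = ∅ := by
    intro y hy
    obtain ⟨l1, l2, l3⟩ := lr_some (hY y hy)
    have := hE (ℓ y) (by omega)
    rw [l2] at this
    exact this.mem.2.1
  have c1 : K1 ⊆ moved q P M (ℓ y1) := by
    intro z hz
    rw [hK1, Finset.mem_biUnion] at hz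
    obtain ⟨j, hj, hz⟩ := hz
    rw [Finset.mem_Ico] at hj
    unfold moved
    rw [Finset.mem_biUnion]
    have : j ≠ ℓ y1 := by
      rintro rfl
      rw [hPℓ y1 hy1] at hz
      simp at hz
    exact ⟨j, hmem y1 hy1 j (by omega) (by omega) (Or.inl hj.2), hz⟩
  have c2 : K2 ⊆ moved q P M (ℓ y2) := by
    intro z hz
    rw [hK2, Finset.mem_biUnion] at hz
    obtain ⟨j, hj, hz⟩ := hz
    rw [Finset.mem_filter, Finset.mem_Ico] at hj
    unfold moved
    rw [Finset.mem_biUnion]
    obtain ⟨l1, l2, l3⟩ := lr_some (hY y2 hy2)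
    exact ⟨j, hmem y2 hy2 j (by omega) (by omega) (Or.inr hj.2), hz⟩
  have c3 : ∀ y ∈ Y, moved q P M (ℓ y) ⊆ K1 ∪ K2 := by
    intro y hy z hz
    unfold moved at hz
    rw [Finset.mem_biUnion] at hz
    obtain ⟨j, hj, hz⟩ := hz
    unfold until' at hj
    rw [Finset.mem_filter, Finset.mem_Ioo] at hj
    obtain ⟨⟨h1, h2⟩, h3⟩ := hj
    obtain ⟨l1, l2, l3⟩ := lr_some (hY y hy)
    rw [Finset.mem_union]
    by_cases hji : j < i
    · left
      rw [hK1, Finset.mem_biUnion]
      exact ⟨j, Finset.mem_Ico.2 ⟨by have := hmin y hy; omega, hji⟩, hz⟩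
    · right
      rw [hK2, Finset.mem_biUnion]
      refine ⟨j, ?_, hz⟩
      rw [Finset.mem_filter, Finset.mem_Ico]
      refine ⟨⟨by omega, h2⟩, ?_⟩
      have h4 : j ≤ e y := by
        refine (he y j (by omega) h2).1 fun k hk1 hk2 => ?_
        have := h3 k (Finset.mem_Ioo.2 ⟨by omega, hk2⟩)
        rw [l2] at this
        exact this
      have := hmax y hy
      omega
  have c4 : (K1 ∪ K2).card ≤ 2 * k := by
    have h1 := Finset.card_union_le K1 K2
    have h2 := Finset.card_le_card c1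
    have h3 := Finset.card_le_card c2
    have h4 := hk y1 hy1
    have h5 := hk y2 hy2
    omega
  have l1y := lr_some (hY y1 hy1)
  have hb1 : IsBST (t (ℓ y1)) := by
    unfold IsBST; rw [keys_const hE (by omega)]; exact hb
  have hstat := una_kraft (K1 ∪ K2) (t (ℓ y1)) hb1 Y (by
    intro y hy
    obtain ⟨l1, l2, l3⟩ := lr_some (hY y hy)
    have := hE (ℓ y) (by omega)
    rw [l2] at this
    have h2 := this.mem.1
    rw [keys_const hE (by omega)] at h2 ⊢
    exact h2)
  have hle : ∑ y ∈ Y, ((1 : ℝ) / 4) ^ (una (moved q P M (ℓ y)) y (t (ℓ y)) + 1) ≤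
      ∑ y ∈ Y, ((1 : ℝ) / 4) ^ (una (K1 ∪ K2) y (t (ℓ y1)) + 1) := by
    refine Finset.sum_le_sum fun y hy => ?_
    obtain ⟨l1, l2, l3⟩ := lr_some (hY y hy)
    have h1 := una_anti (c3 y hy) y (t (ℓ y))
    have h2 := una_const (K := K1 ∪ K2) hb hE hi (a := ℓ y1) (b := i) (by
      intro j h3 h4
      refine (Finset.subset_biUnion_of_mem P (Finset.mem_Ico.2 ⟨h3, h4⟩)).trans ?_
      exact Finset.subset_union_left) y (ℓ y) (hmin y hy) l1.le
    rw [← h2]
    exact pow_le_pow_of_le_one (by norm_num) (by norm_num) (by omega)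
  have hcard : (((K1 ∪ K2).filter fun y => y ∈ keys (t (ℓ y1))).card : ℝ) ≤ 2 * k := by
    have := Finset.card_filter_le (K1 ∪ K2) (fun y => y ∈ keys (t (ℓ y1)))
    exact_mod_cast this.trans c4
  linarith

/-- the weight given by a request of the key `y` at the time `ℓ` -/
noncomputable def A (t : ℕ → Tr) (q : ℕ → Option ℕ) (P : ℕ → Finset ℕ) (S : ℕ → List ℕ)
    (M ℓ y : ℕ) : ℝ :=
  (1 / 4) ^ (una (moved q P M ℓ) y (t ℓ) + 1) * ((1 + ((moved q P M ℓ).card : ℝ))⁻¹) ^ 2 +
    v (dep y (t ℓ)) (touched q S M ℓ y)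

theorem A_pos (ℓ y : ℕ) : 0 < A t q P S M ℓ y := by
  unfold A
  have := v_pos (dep y (t ℓ)) (touched q S M ℓ y)
  positivity

/-- the weight of the key `y` at the time `i` -/
noncomputable def W (t : ℕ → Tr) (q : ℕ → Option ℕ) (P : ℕ → Finset ℕ) (S : ℕ → List ℕ)
    (n M i y : ℕ) : ℝ := (lr q y i).elim 0 (fun ℓ => A t q P S M ℓ y) + 1 / n

theorem elim_nonneg {o : Option ℕ} {f : ℕ → ℝ} (h : ∀ ℓ, 0 ≤ f ℓ) : 0 ≤ o.elim 0 f := by
  cases o with
  | none => exact le_rfl
  | some ℓ => exact h ℓ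

theorem W_ge (i y : ℕ) : 1 / (n : ℝ) ≤ W t q P S n M i y := by
  have h1 := elim_nonneg (o := lr q y i) (fun ℓ => (A_pos (t := t) (q := q) (P := P) (S := S)
    (M := M) ℓ y).le)
  unfold W
  linarith

theorem W_pos (hn : 1 ≤ n) (i y : ℕ) : 0 < W t q P S n M i y := by
  have : (0 : ℝ) < n := by exact_mod_cast hn
  exact lt_of_lt_of_le (by positivity) (W_ge i y)

theorem W_mono {i y : ℕ} (h : q i ≠ some y) : W t q P S n M (i + 1) y ≤ W t q P S n M i y := by
  unfold W
  have : lr q y (i + 1) = lr q y i := by simp only [lr, h, if_false]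
  rw [this]

theorem sum_inv {F : Finset ℕ} (hn : 1 ≤ n) (hF : F.card = n) : ∑ _y ∈ F, (1 : ℝ) / n = 1 := by
  rw [Finset.sum_const, hF, nsmul_eq_mul]
  have : (n : ℝ) ≠ 0 := by positivity
  rw [mul_one_div, div_self this]

theorem W_zero_sum (hn1 : 1 ≤ n) (hb : IsBST (t 0)) (hn : (keys (t 0)).length = n) :
    ((keys (t 0)).map (W t q P S n M 0)).sum ≤ 1 := by
  have hnd : (keys (t 0)).Nodup := hb.imp (fun h => ne_of_lt h)
  rw [← List.sum_toFinset _ hnd]
  unfold W
  simp only [lr, Option.elim_none, zero_add]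
  rw [sum_inv hn1 (by rw [List.toFinset_card_of_nodup hnd, hn])]

theorem W_sum (hn1 : 1 ≤ n) (hb : IsBST (t 0)) (hn : (keys (t 0)).length = n)
    (hE : ∀ i < M, Ev (t i) (t (i + 1)) (q i) (P i) (S i)) {i : ℕ} (hi : i ≤ M) :
    ((keys (t 0)).map (W t q P S n M i)).sum ≤ 4 := by
  have hnd : (keys (t 0)).Nodup := hb.imp (fun h => ne_of_lt h)
  rw [← List.sum_toFinset _ hnd]
  have hTL : TL ((range M).biUnion P) t S 0 i := stp_of hE hi (fun j _ h2 =>
    Finset.subset_biUnion_of_mem P (Finset.mem_range.2 (by omega)))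
  set F := (keys (t 0)).toFinset with hF
  set ℓ : ℕ → ℕ := fun y => (lr q y i).getD 0 with hℓ
  set Y := F.filter (fun y => lr q y i ≠ none) with hYd
  have e1 : ∑ y ∈ F, (lr q y i).elim 0 (fun ℓ => A t q P S M ℓ y) =
      ∑ y ∈ Y, A t q P S M (ℓ y) y := by
    rw [hYd, Finset.sum_filter]
    refine Finset.sum_congr rfl fun y _ => ?_
    rw [hℓ]
    simp only
    cases h : lr q y i with
    | none => simp
    | some k => simp
  have hsome : ∀ y ∈ Y, lr q y i = some (ℓ y) := by
    intro y hy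
    rw [hYd, Finset.mem_filter] at hy
    obtain ⟨k, hk⟩ := Option.ne_none_iff_exists'.1 hy.2
    rw [hℓ]
    simp only
    rw [hk]
    rfl
  have hY : ∀ y ∈ Y, y ∈ keys (t 0) ∧ 0 ≤ ℓ y ∧ ℓ y ≤ i := by
    intro y hy
    refine ⟨?_, Nat.zero_le _, (lr_some (hsome y hy)).1.le⟩
    rw [hYd, Finset.mem_filter, hF, List.mem_toFinset] at hy
    exact hy.1
  have k1 := abel Y (fun y => (1 / 4) ^ (una (moved q P M (ℓ y)) y (t (ℓ y)) + 1))
    (fun y => (moved q P M (ℓ y)).card) (fun k => by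
      refine nest hb hE hi _ ℓ (fun y hy => ?_) k (fun y hy => ?_)
      · rw [Finset.mem_filter] at hy; exact hsome y hy.1
      · rw [Finset.mem_filter] at hy; exact hy.2)
  have k2 := kraft ((range M).biUnion P) n t S 0 i (Nat.zero_le _) hb hn.le hTL Y ℓ hY 0
  have k3 : ∑ y ∈ Y, v (dep y (t (ℓ y))) (touched q S M (ℓ y) y) ≤
      ∑ y ∈ Y, v (dep y (t (ℓ y))) (cnt S y (ℓ y) i + 0) := by
    refine Finset.sum_le_sum fun y hy => v_mono ?_
    obtain ⟨l1, l2, l3⟩ := lr_some (hsome y hy)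
    unfold cnt touched until'
    rw [add_zero]
    refine Finset.card_le_card ?_
    intro j hj
    rw [Finset.mem_filter, Finset.mem_Ico] at hj
    rw [Finset.mem_filter, Finset.mem_filter, Finset.mem_Ioo]
    have hS : S (ℓ y) = [] := by
      have := hE (ℓ y) (by omega)
      rw [l2] at this
      exact this.mem.2.2
    have : j ≠ ℓ y := by
      rintro rfl
      rw [hS] at hj
      simp at hj
    refine ⟨⟨⟨by omega, by omega⟩, fun k hk => ?_⟩, hj.2⟩
    rw [Finset.mem_Ioo] at hk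
    rw [l2]
    exact l3 k (by omega) (by omega)
  have k4 : ∑ _y ∈ F, (1 : ℝ) / n = 1 :=
    sum_inv hn1 (by rw [List.toFinset_card_of_nodup hnd, hn])
  unfold W
  rw [Finset.sum_add_distrib, e1, k4]
  unfold A
  rw [Finset.sum_add_distrib]
  have b2 : bd 0 = 1 / 2 := by simp [bd]
  rw [b2] at k2
  linarith

end

end Pool.Agent.Helper59.SP
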